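import Mathlib
import Pool.Agent.Lib_helper86.Sid.Core

/-!
# MP_c6effb_co: R(3,G) <= k + m for all graphs of maximum degree at most 3

Statements of the modules SC_*. Paper proof: Pool/Agent/Dive/MP_c6effb_co/SWARM.md, part 1.
Basic definitions (dg, E2, Emb, TF, Good, Ctx) are those of Lib_helper86/Sid.
-/

set_option autoImplicit false

namespace Pool.Agent.SC

open Finset Classical Pool.Agent.Sid86

/-- `D` is connected: every proper nonempty part of `D` is joined to the rest of `D` -/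
def Conn {V : Type} (G : SimpleGraph V) (D : Finset V) : Prop :=
  ∀ X ⊆ D, X.Nonempty → X ≠ D → ∃ x ∈ X, ∃ y ∈ D \ X, G.Adj x y

/-- `G[A]` is cubic -/
def Cubic {V : Type} (G : SimpleGraph V) (A : Finset V) : Prop := ∀ x ∈ A, dg G A x = 3

/-- every vertex of `A` outside `T` has at most one neighbour in `T` -/
def Closed {V : Type} (G : SimpleGraph V) (A T : Finset V) : Prop :=
  ∀ x ∈ A \ T, dg G T x ≤ 1

/-- `I` is a maximum independent set of `H`, with `s` elements -/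
structure MaxInd {W : Type} (H : SimpleGraph W) (I : Finset W) (s : ℕ) : Prop where
  ind : ∀ x ∈ I, ∀ y ∈ I, ¬ H.Adj x y
  card : I.card = s
  max : ∀ J : Finset W, (∀ x ∈ J, ∀ y ∈ J, ¬ H.Adj x y) → J.card ≤ s

/-- the `I`-degree of `y` in `H` -/
noncomputable def dI {W : Type} (H : SimpleGraph W) (I : Finset W) (y : W) : ℕ :=
  (I.filter (fun z => H.Adj y z)).card

/-- the vertices outside `I` of `I`-degree at most `s - b` -/
noncomputable def Mset {W : Type} [Fintype W] (H : SimpleGraph W) (I : Finset W) (s b : ℕ) :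
    Finset W :=
  (univ \ I).filter (fun y => dI H I y + b ≤ s)

/-- the vertices outside `I` of `I`-degree larger than `s - b` -/
noncomputable def Zset {W : Type} [Fintype W] (H : SimpleGraph W) (I : Finset W) (s b : ℕ) :
    Finset W :=
  (univ \ I).filter (fun y => s < dI H I y + b)

/-- the situation of regime II: `T` closed, connected, `|T| ≥ t0 := |A| - s`,
`E2 G T ≥ 4 |T| - 2 t0 - 2`, and `b = 3 |T| - E2 G T` is the number of edges leaving `T` -/
structure RII {V W : Type} [Fintype W] (G : SimpleGraph V) (A : Finset V) (H : SimpleGraph W)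
    (I : Finset W) (T : Finset V) (s b : ℕ) : Prop where
  ctx : Ctx G A H
  cub : Cubic G A
  mi : MaxInd H I s
  s5 : 5 ≤ s
  sk : s < A.card
  ks : 3 * A.card ≤ 4 * s
  TA : T ⊆ A
  ne : T.Nonempty
  nA : T ≠ A
  conn : Conn G T
  closed : Closed G A T
  ht : A.card ≤ s + T.card
  he : 4 * T.card + 2 * s ≤ E2 G T + 2 * A.card + 2
  hb : b + E2 G T = 3 * T.card

/-- CON. In a minimal counterexample `G[A]` is connected.
Proof. Let `X ⊆ A`, `X` nonempty, `X ≠ A`, without an edge to `A \ X`. By `ctx.ih` (applied to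
`S = A \ X` and to `S = X`) `Good G X` (as `A \ (A \ X) = X`) and `Good G (A \ X)`. Embed `X` by
`f` (`good_avoid` with `Z = ∅`, or `Good` itself: `2|X| + E2 G X ≤ 2|A| + E2 G A ≤ 2|W|`, E2 is
monotone by `dg_mono`), then `A \ X` by `g` avoiding `f(X)` (`good_avoid`, `Z = X.image f`,
`2|A \ X| + E2 G (A \ X) + 2|X| ≤ 2|A| + E2 G A`). The union is `Emb G H A`, contradiction. -/
def Stmt_CON : Prop :=
  ∀ (V W : Type) [Fintype W] [Nonempty W] (G : SimpleGraph V) (A : Finset V)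
    (H : SimpleGraph W), Ctx G A H → Conn G A

/-- LOW. The independence number of `H` is at least 4.
Proof. Suppose `s ≤ 3`. `A` is nonempty; choose `v ∈ A` (then `3 = dg G A v`, so `|A| ≥ 4`) and
`x : W` arbitrary. Let `Z = insert x (N(x))`, `|Z| ≤ 1 + s ≤ 4` (`N(x)` is independent, so
`mi.max`). By `Ctx.avoid` with `S = {v}`: `2|Z| + E2 G (A \ {v}) ≤ 2 + E2 G A` since
`E2 G A = E2 G (A.erase v) + 2 * 3` (`E2_erase`): 8 + E2 - 6 ≤ 2 + E2. So there is an embedding
`f` of `A \ {v}` avoiding `Z`; put `v` at `x`: `Emb G H A`, contradiction to `ctx.no`. -/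
def Stmt_LOW : Prop :=
  ∀ (V W : Type) [Fintype W] [Nonempty W] (G : SimpleGraph V) (A : Finset V)
    (H : SimpleGraph W) (I : Finset W) (s : ℕ),
    Ctx G A H → Cubic G A → A.Nonempty → MaxInd H I s → 4 ≤ s

/-- TUP. In a connected cubic graph there are a vertex `v` and two of its neighbours `c1, c2`
such that `G - {v, c1, c2}` is connected.
Proof. Consider all `(v, u, c1, c2, D)` with `v, u, c1, c2 ∈ A` distinct, `N_A(v) = {u, c1, c2}`,
`D ⊆ A \ {v, c1, c2}`, `u ∈ D`, `Conn G D`; there are such tuples (`D = {u}`). Take `|D|` maximal.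
Claim `D = A \ {v, c1, c2}`. Let `C = A \ (D ∪ {v, c1, c2})` and suppose `C ≠ ∅`.
Adding to a connected nonempty set a vertex adjacent to it gives a connected set (prove this
first: `Conn G D → y ∈ D → G.Adj x y → Conn G (insert x D)`).
By maximality there is no edge between `D` and `C`; `v` has no neighbour in `C`; as `G[A]` is
connected, some `x ∈ C` is adjacent to `c1` or `c2`.
(a) some `x ∈ C` is adjacent to exactly one `c` of `c1, c2`. Its other two neighbours `z1, z2` are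
in `C`. The tuple `(x, c, z1, z2, D ∪ {v, c1, c2})` is larger.
(b) every `x ∈ C` adjacent to one of `c1, c2` is adjacent to both. Take such an `x`; its third
neighbour `z` is in `C`. If `z` is adjacent to `c1` (hence to `c2`): `(x, c1, z, c2, D ∪ {v, c1})`
is larger. Otherwise `N(z) = {x, z1, z2}` with `z1, z2 ∈ C`, and
`(z, x, z1, z2, D ∪ {v, c1, c2, x})` is larger. -/
def Stmt_TUP : Prop :=
  ∀ (V : Type) (G : SimpleGraph V) (A : Finset V), Cubic G A → Conn G A → A.Nonempty →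
    ∃ v u c1 c2 : V, v ∈ A ∧ u ∈ A ∧ c1 ∈ A ∧ c2 ∈ A ∧ v ≠ u ∧ v ≠ c1 ∧ v ≠ c2 ∧ u ≠ c1 ∧
      u ≠ c2 ∧ c1 ≠ c2 ∧ G.Adj v u ∧ G.Adj v c1 ∧ G.Adj v c2 ∧
      (∀ x ∈ A, G.Adj v x → x = u ∨ x = c1 ∨ x = c2) ∧ Conn G (A \ {v, c1, c2})

/-- RG1, regime I. `4 s < 3 |A|` is impossible.
Proof. Let `k = |A|`, `2|W| ≥ 5k` (from `ctx.card` and `E2 G A = 3k`). Every neighbourhood of `H`
is independent, so has at most `s` elements. Take `v, u, c1, c2` from TUP, `D = A \ {v, c1, c2}`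
(`u ∈ D`). There are `x1 ≠ x2` non-adjacent in `H` (`|W| ≥ 3` and `H` is triangle-free).
`R = W \ (N(x1) ∪ N(x2))` has at least `|W| - 2s > s` elements, so by `mi.max` it contains an edge
`p q` of `H`; `p, q ∉ {x1, x2}`. Claim: for all `Y` with `u ∈ Y ⊆ D` there is an embedding `f` of
`A \ (insert v Y)` with `f c1 = x1`, `f c2 = x2` and values different from `p, q`; induction on
`|D \ Y|`. If `Y = D` take `f c1 = x1, f c2 = x2`. If `Y ≠ D`, `Conn G D` gives `x ∈ D \ Y`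
adjacent to some vertex of `Y`; take `f` for `insert x Y`; `x` has at most 2 neighbours in
`A \ (insert v Y)`, at most `k - 3` positions are used, and `(k - 3) + 2 + 2s < |W|` because
`4 s < 3 k` and `2|W| ≥ 5k`: there is a free position for `x`, different from `p, q` and not
adjacent to the images of the placed neighbours of `x`. Take `Y = {u}`; in the same way `u` (whose
neighbour `v` is unplaced) gets a position `y`: `(k - 2) + 2 + 2s < |W|`. Finally `v`, with
neighbours `u, c1, c2`, goes to that one of `p, q` which is not adjacent to `y` (not both are, `H`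
is triangle-free). -/
def Stmt_RG1 : Prop :=
  ∀ (V W : Type) [Fintype W] [Nonempty W] (G : SimpleGraph V) (A : Finset V)
    (H : SimpleGraph W) (I : Finset W) (s : ℕ),
    Ctx G A H → Cubic G A → A.Nonempty → Conn G A → MaxInd H I s → 3 * A.card ≤ 4 * s

/-- CLO. Existence of the closed set `T`.
Proof. `t0 = 1`: `T = {v}`. `t0 ≥ 2`: let `T'` be of maximal cardinality among the nonempty
`T' ⊆ A` with `Conn`, `Closed`, `|T'| ≤ t0 - 1`, `2|T'| ≤ E2 G T' + 2` (`{v}` is one). As `G[A]` is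
connected and `T' ≠ A` there is `z ∈ A \ T'` adjacent to `T'`; `U = insert z T'` is connected and
`E2 G U ≥ E2 G T' + 2` (`E2_erase`). Closure lemma: for every nonempty connected `U ⊆ A` there is
a closed connected `T` with `U ⊆ T ⊆ A` and `E2 G U + 4 (|T| - |U|) ≤ E2 G T` (induction on
`|A \ U|`: if `U` is not closed add a vertex with at least two neighbours in `U`). For this `T`:
with `r = |T| - |T'| - 1`, `E2 G T ≥ 2|T'| - 2 + 2 + 4r = 2|T| - 2 + 2r`; if `|T| ≤ t0 - 1` this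
contradicts the maximality of `T'`; so `|T| ≥ t0`, `r ≥ |T| - t0` and
`E2 G T ≥ 4|T| - 2 t0 - 2`. -/
def Stmt_CLO : Prop :=
  ∀ (V : Type) (G : SimpleGraph V) (A : Finset V) (t0 : ℕ), Cubic G A → Conn G A →
    A.Nonempty → 1 ≤ t0 → t0 < A.card →
    ∃ T ⊆ A, T.Nonempty ∧ Conn G T ∧ Closed G A T ∧ t0 ≤ T.card ∧
      4 * T.card ≤ E2 G T + 2 * t0 + 2

/-- BDC. Number of vertices outside `T` with a neighbour in `T`.
Proof. Double counting of the edges between `T` and `A \ T`: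
`∑ y ∈ A \ T, dg G T y = ∑ x ∈ T, dg G (A \ T) x = ∑ x ∈ T, (3 - dg G T x) = 3|T| - E2 G T = b`
and every `y` with `dg G T y > 0` counts at least 1. -/
def Stmt_BDC : Prop :=
  ∀ (V : Type) (G : SimpleGraph V) (A T : Finset V) (b : ℕ), Cubic G A → T ⊆ A →
    b + E2 G T = 3 * T.card →
    ((A \ T).filter (fun y => 0 < dg G T y)).card ≤ b ∧
    ∑ x ∈ T, dg G (A \ T) x = b

/-- ISO. Putting `S = A \ T` into the independent set `I`.
Proof. Hall's theorem (`Finset.all_card_le_biUnion_card_iff_exists_injective` or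
`exists_injective`) for `S → I`, allowed positions of `y ∈ S`: the `a ∈ I` not adjacent to `f x`
for the neighbours `x ∈ T` of `y` (there is at most one). For `X ⊆ S`: if some `y ∈ X` has no
neighbour in `T` all of `I` is allowed and `|X| ≤ |S| ≤ |I|`; otherwise `|X| ≤ b` and already one
`y ∈ X` has at least `b` allowed positions. The union of `f` on `T` and of this map on `S` is
`Emb G H A` (no edges inside `I`). -/
def Stmt_ISO : Prop :=
  ∀ (V W : Type) [Fintype W] [Nonempty W] (G : SimpleGraph V) (A T : Finset V)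
    (H : SimpleGraph W) (I : Finset W) (f : V → W) (b : ℕ),
    T ⊆ A → Closed G A T → (∀ x ∈ I, ∀ y ∈ I, ¬ H.Adj x y) → (A \ T).card ≤ I.card →
    Emb G H T f → (∀ x ∈ T, f x ∉ I) →
    ((A \ T).filter (fun y => 0 < dg G T y)).card ≤ b →
    (∀ x ∈ T, 0 < dg G (A \ T) x → dI H I (f x) + b ≤ I.card) →
    ∃ f' : V → W, Emb G H A f'

/-- INN. Putting the inner vertices `T \ D` into the independent set `Z`.
Proof. Hall's theorem for `T \ D → Z`, allowed positions of `w`: the `z ∈ Z` not adjacent to any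
`f x`, `x ∈ D` a neighbour of `w`. Every `w` has at most 3 neighbours in `D`, so at least
`|Z| - 3 l ≥ 2 c` allowed positions. Let `X ⊆ T \ D` be nonempty. If every `z ∈ Z` is allowed for
some `w ∈ X` then the union has `|Z| ≥ |T \ D| ≥ |X|` elements. Otherwise some `z ∈ Z` is forbidden
for every `w ∈ X`: every `w ∈ X` has a neighbour `x ∈ D` with `H.Adj z (f x)`; there are at most `c`
such `x` (`f` is injective on `D`), each has at most 2 neighbours in `T \ D`; so
`|X| ≤ 2 c ≤` number of allowed positions of one `w`. -/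
def Stmt_INN : Prop :=
  ∀ (V W : Type) [Fintype W] [Nonempty W] (G : SimpleGraph V) (T D : Finset V)
    (H : SimpleGraph W) (Z : Finset W) (f : V → W) (c l : ℕ),
    D ⊆ T → (∀ x ∈ Z, ∀ y ∈ Z, ¬ H.Adj x y) → Emb G H D f → (∀ x ∈ D, f x ∉ Z) →
    (T \ D).card ≤ Z.card → (∀ w ∈ T \ D, dg G D w ≤ 3) →
    (∀ x ∈ D, dg G (T \ D) x ≤ 2) →
    (∀ x ∈ D, (Z.filter (fun z => H.Adj (f x) z)).card ≤ l) →
    (∀ z ∈ Z, (D.filter (fun x => H.Adj z (f x))).card ≤ c) →
    2 * c + 3 * l ≤ Z.card →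
    ∃ f' : V → W, Emb G H T f' ∧ (∀ x ∈ D, f' x = f x) ∧ ∀ x ∈ T \ D, f' x ∈ Z

/-- CNT. Counting the edges between `I` and its complement.
Proof. `∑ y ∉ I, dI y = ∑ a ∈ I, |N(a) \ I| ≤ s * s` (neighbourhoods are independent, `mi.max`);
`dI y ≥ 1` for `y ∉ I` since otherwise `insert y I` is independent. -/
def Stmt_CNT : Prop :=
  ∀ (W : Type) [Fintype W] (H : SimpleGraph W) (I : Finset W) (s : ℕ), TF H → MaxInd H I s →
    (∑ y ∈ univ \ I, dI H I y ≤ s * s) ∧ ∀ y ∈ univ \ I, 1 ≤ dI H I y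

/-- ZPR. Properties of `Z = Zset H I s b`.
Proof. `deg_H z ≤ s` and `dI z ≥ s - b + 1`, so at most `b - 1` neighbours outside `I`. If
`z, z' ∈ Z` were adjacent, their sets of neighbours in `I` would be disjoint, with more than `s`
elements together. -/
def Stmt_ZPR : Prop :=
  ∀ (W : Type) [Fintype W] (H : SimpleGraph W) (I : Finset W) (s b : ℕ), TF H → MaxInd H I s →
    (∀ z ∈ Zset H I s b, ((univ \ I).filter (fun y => H.Adj z y)).card + 1 ≤ b) ∧
    (2 * b < s + 2 → ∀ x ∈ Zset H I s b, ∀ y ∈ Zset H I s b, ¬ H.Adj x y)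

/-- CAM, case (4a): the low part `M` is large.
Proof. `Good G T` by `ctx.ih` (`S = A \ T`, nonempty). `good_avoid` with `Z = univ \ M` gives an
embedding `f` of `T` with values in `M = Mset H I s b`; then ISO with BDC. `|A \ T| ≤ s = |I|` by
`ht`. -/
def Stmt_CAM : Prop :=
  ∀ (V W : Type) [Fintype W] [Nonempty W] (G : SimpleGraph V) (A : Finset V)
    (H : SimpleGraph W) (I : Finset W) (T : Finset V) (s b : ℕ),
    RII G A H I T s b → 2 * (Mset H I s b).card < 2 * T.card + E2 G T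

/-- CB1, case `b = 1`.
Proof. Let `x1 ∈ T` be the vertex with a neighbour outside `T` (`∑ x ∈ T, dg G (A \ T) x = 1`).
`Z = Zset H I s 1` = vertices outside `I` adjacent to all of `I`; by ZPR they have NO neighbour
outside `I`, so `Z` is independent, `|Z| ≤ s`. `B = univ \ I = M ∪ Z`, `2|B| ≥ 5|A| - 2s`
(`ctx.card`, cubic), so with `t0 = |A| - s`: `2|B| ≥ 14 t0`; `|T| ≤ 2 t0 + 1` from `he`, `hb`.
Choose `TZ ⊆ T \ {x1}` with `|TZ| = min |Z| (|T| - 1)`, an injection `g : TZ → Z`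
(`exists_injOn`), and embed `T \ TZ` by `good_avoid` in `M` (`Good` by `ctx.ih`):
if `|Z| ≤ |T| - 1`, `2|T \ TZ| + E2 G (T \ TZ) ≤ 2|T| - 2|Z| + 3|T| - 1 ≤ 2|B| - 2|Z| = 2|M|`;
otherwise `T \ TZ = {x1}` and `|M| ≥ |B| - s ≥ 1`. The union is an embedding `f` of `T` (the
positions in `Z` have no neighbour outside `I`) with `f x1 ∈ M`, i.e. `dI (f x1) + 1 ≤ s`.
ISO with `b = 1` and BDC. -/
def Stmt_CB1 : Prop :=
  ∀ (V W : Type) [Fintype W] [Nonempty W] (G : SimpleGraph V) (A : Finset V)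
    (H : SimpleGraph W) (I : Finset W) (T : Finset V) (s : ℕ),
    RII G A H I T s 1 → False

/-- ARI. The inequalities of case (4b); `t0 = k - s`, `M, Z` cardinalities, `E = E2 G T`.
Proof. `2 (M + Z) ≥ 5k - 2s = 3k + 2 t0 ≥ 14 t0`, `2 M < 2t + E`, `E = 3t - b`,
`4t ≤ E + 2 t0 + 2`, so `t ≤ 2 t0 + 2 - b` and `M ≤ 5 t0 + 4 - 3b`.
First part (`2b < s + 2`): `b ≤ t0 + 2` and `s ≥ 3 t0`, so otherwise `t0 ≤ 2`; `t0 = 1` is excluded
by `s ≥ 5`; `t0 = 2`: `s = 6, k = 8, b = 4, t = 2, E = 2`, `M + Z ≥ 14`, `M ≤ 2` and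
`Z (s + 1 - b) + M ≤ s * s` fails.
Second part: with `Z ≤ s` we get `2M ≥ k + 4 t0 ≥ 8 t0`, hence `3b ≤ t0 + 4`, `t0 ≥ 2`, and
`Z ≥ 2 t0 - 4 + 3b`; the rest follows by `nlinarith`. -/
def Stmt_ARI : Prop :=
  ∀ k s t E b M Z : ℕ, 5 ≤ s → s < k → 3 * k ≤ 4 * s → k ≤ s + t →
    4 * t + 2 * s ≤ E + 2 * k + 2 → b + E = 3 * t → 2 ≤ b → 5 * k ≤ 2 * (M + Z + s) →
    2 * M < 2 * t + E → 1 ≤ t → Z * (s + 1 - b) + M ≤ s * s →
    E ≤ t * (t - 1) →
    2 * b < s + 2 ∧ (Z ≤ s → 2 ≤ t ∧ 2 * t ≤ 2 * Z + b ∧ 2 * (b - 1) ≤ Z ∧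
      3 * (b - 1) * Z < (M + 1 - 2 * b) * (Z + 3 - 2 * b) ∧ 2 * b ≤ M)

/-- CB2, case (4b), `b ≥ 2`.
Proof. Write `Z = Zset H I s b`, `M = Mset H I s b`, `B = univ \ I = M ∪ Z` disjoint. By CNT,
`|Z| (s + 1 - b) + |M| ≤ s * s`. By ARI and ZPR `Z` is independent, so `|Z| ≤ s` by `mi.max`, and
the inequalities of ARI hold (`E2 G T ≤ |T| (|T| - 1)` since `dg G T x ≤ |T| - 1`).
`D = T.filter (fun x => 0 < dg G (A \ T) x)` (outer vertices). For `x ∈ D`,
`dg G T x = 3 - dg G (A \ T) x ≤ 2`; `∑ x ∈ D, dg G (A \ T) x = b` (BDC), so `|D| ≤ b`, and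
`b ≤ 2|D|` because `dg G T x ≥ 1` (`Conn G T` and `|T| ≥ 2`). Let `l = (|Z| - 2(b-1)) / 3` and
`M' = M.filter (fun p => (Z.filter (H.Adj p)).card ≤ l)`. Then `2b ≤ |M'|`: otherwise
`(|M| + 1 - 2b) (l + 1) ≤ ∑ p ∈ M \ M', |N(p) ∩ Z| ≤ ∑ z ∈ Z, |N(z) \ I| ≤ (b - 1)|Z|` (ZPR) and
`3 (l + 1) ≥ |Z| + 3 - 2b` contradict ARI. `Good G D` by `ctx.ih`, and
`2|D| + E2 G D ≤ 2|D| + ∑ x ∈ D, dg G T x = 2|D| + 3|D| - b ≤ 4b ≤ 2|M'|`: embed `D` in `M'`
(`good_avoid`). Then INN with `c = b - 1` (for `z ∈ Z` the `x ∈ D` with `H.Adj z (f x)` inject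
into `N(z) \ I`): `|T \ D| = |T| - |D| ≤ |T| - b/2 ≤ |Z|`. Then ISO with BDC: outer vertices have
`f' x = f x ∈ M`. -/
def Stmt_CB2 : Prop :=
  ∀ (V W : Type) [Fintype W] [Nonempty W] (G : SimpleGraph V) (A : Finset V)
    (H : SimpleGraph W) (I : Finset W) (T : Finset V) (s b : ℕ),
    RII G A H I T s b → 2 ≤ b → 2 * T.card + E2 G T ≤ 2 * (Mset H I s b).card

end Pool.Agent.SC
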