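import Mathlib
import Pool.Agent.SC.Stmts

/-!
# CLO: existence of the closed connected set
-/

set_option autoImplicit false

namespace Pool.Agent.SC

open Finset Classical Pool.Agent.Sid86

namespace CLO

variable {V : Type} {G : SimpleGraph V}

theorem conn_singleton (v : V) : Conn G {v} := by
  intro X hX hne hn
  exact absurd ((subset_singleton_iff.1 hX).resolve_left hne.ne_empty) hn

theorem conn_insert {D : Finset V} (hD : Conn G D) {x y : V} (hy : y ∈ D) (hxy : G.Adj x y) :
    Conn G (insert x D) := by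
  intro X hX hne hn
  by_cases hx : x ∈ X
  · by_cases hXD : (X ∩ D).Nonempty
    · have h1 : X ∩ D ≠ D := by
        intro h
        apply hn
        apply Subset.antisymm hX
        intro z hz
        rcases mem_insert.1 hz with rfl | hz
        · exact hx
        · rw [← h] at hz
          exact (mem_inter.1 hz).1
      obtain ⟨p, hp, q, hq, hpq⟩ := hD _ inter_subset_right hXD h1
      rw [mem_sdiff, mem_inter] at hq
      exact ⟨p, (mem_inter.1 hp).1, q, mem_sdiff.2 ⟨mem_insert_of_mem hq.1,
        fun h => hq.2 ⟨h, hq.1⟩⟩, hpq⟩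
    · refine ⟨x, hx, y, mem_sdiff.2 ⟨mem_insert_of_mem hy, fun h => hXD ⟨y, ?_⟩⟩, hxy⟩
      exact mem_inter.2 ⟨h, hy⟩
  · have hXD : X ⊆ D := fun z hz => (mem_insert.1 (hX hz)).resolve_left (fun h => hx (h ▸ hz))
    by_cases h : X = D
    · subst h
      exact ⟨y, hy, x, mem_sdiff.2 ⟨mem_insert_self _ _, hx⟩, hxy.symm⟩
    · obtain ⟨p, hp, q, hq, hpq⟩ := hD X hXD hne h
      rw [mem_sdiff] at hq
      exact ⟨p, hp, q, mem_sdiff.2 ⟨mem_insert_of_mem hq.1, hq.2⟩, hpq⟩

theorem E2_insert {U : Finset V} {x : V} (hx : x ∉ U) {n : ℕ} (hn : n ≤ dg G U x) :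
    E2 G U + 2 * n ≤ E2 G (insert x U) := by
  have h1 := E2_erase G (mem_insert_self x U)
  rw [erase_insert hx] at h1
  have h2 := dg_mono G (subset_insert x U) x
  omega

theorem closure (A : Finset V) : ∀ (n : ℕ) (U : Finset V), (A \ U).card = n → U ⊆ A →
    Conn G U → ∃ T, U ⊆ T ∧ T ⊆ A ∧ Conn G T ∧ Closed G A T ∧
      E2 G U + 4 * T.card ≤ E2 G T + 4 * U.card := by
  intro n
  induction n with
  | zero =>
    intro U hU hUA hc
    have h1 : A \ U = ∅ := card_eq_zero.1 hU
    refine ⟨U, Subset.refl _, hUA, hc, ?_, le_refl _⟩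
    intro x hx
    rw [h1] at hx
    exact absurd hx (notMem_empty x)
  | succ n ih =>
    intro U hU hUA hc
    by_cases hcl : Closed G A U
    · exact ⟨U, Subset.refl _, hUA, hc, hcl, le_refl _⟩
    · unfold Closed at hcl
      push Not at hcl
      obtain ⟨x, hx, hx2⟩ := hcl
      rw [mem_sdiff] at hx
      have hpos : 0 < dg G U x := by omega
      obtain ⟨y, hy⟩ := card_pos.1 hpos
      rw [mem_filter] at hy
      have h1 : (A \ insert x U).card = n := by
        have e : A \ insert x U = (A \ U).erase x := by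
          ext z
          simp only [mem_sdiff, mem_insert, mem_erase]
          tauto
        rw [e, card_erase_of_mem (mem_sdiff.2 hx), hU]
        rfl
      obtain ⟨T, hT1, hT2, hT3, hT4, hT5⟩ := ih (insert x U) h1
        (insert_subset hx.1 hUA) (conn_insert hc hy.1 hy.2)
      refine ⟨T, (subset_insert x U).trans hT1, hT2, hT3, hT4, ?_⟩
      have h2 := E2_insert (G := G) hx.2 (n := 2) (by omega)
      rw [card_insert_of_notMem hx.2] at hT5
      omega

end CLO

open CLO

theorem t_CLO : Stmt_CLO := by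
  intro V G A t0 _ hconn hne ht0 htA
  obtain ⟨v, hv⟩ := hne
  have hcl : Closed G A {v} := by
    intro x _
    refine (card_le_card (filter_subset _ _)).trans ?_
    rw [card_singleton]
  by_cases ht : t0 = 1
  · subst ht
    refine ⟨{v}, singleton_subset_iff.2 hv, singleton_nonempty v, conn_singleton v, hcl, ?_, ?_⟩
    · rw [card_singleton]
    · rw [card_singleton]
      omega
  · have hex : (A.powerset.filter (fun T => T.Nonempty ∧ Conn G T ∧ Closed G A T ∧
        T.card + 1 ≤ t0 ∧ 2 * T.card ≤ E2 G T + 2)).Nonempty := by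
      refine ⟨{v}, mem_filter.2 ⟨mem_powerset.2 (singleton_subset_iff.2 hv),
        singleton_nonempty v, conn_singleton v, hcl, ?_, ?_⟩⟩
      · rw [card_singleton]
        omega
      · rw [card_singleton]
        omega
    obtain ⟨T', hT', hmax⟩ := exists_max_image _ card hex
    rw [mem_filter, mem_powerset] at hT'
    obtain ⟨hT'A, hT'n, hT'c, hT'cl, hT't, hT'e⟩ := hT'
    obtain ⟨x, hx, z, hz, hxz⟩ := hconn T' hT'A hT'n (fun h => by
      rw [h] at hT't
      omega)
    rw [mem_sdiff] at hz
    have h1 : 1 ≤ dg G T' z := card_pos.2 ⟨x, mem_filter.2 ⟨hx, hxz.symm⟩⟩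
    have h2 := E2_insert (G := G) hz.2 h1
    obtain ⟨T, hT1, hT2, hT3, hT4, hT5⟩ := closure (G := G) A _ (insert z T') rfl
      (insert_subset hz.1 hT'A) (conn_insert hT'c hx hxz.symm)
    have h3 : T'.card + 1 ≤ T.card := by
      rw [← card_insert_of_notMem hz.2]
      exact card_le_card hT1
    rw [card_insert_of_notMem hz.2] at hT5
    have hTn : T.Nonempty := ⟨z, hT1 (mem_insert_self _ _)⟩
    have h4 : t0 ≤ T.card := by
      by_contra hlt
      have h5 := hmax T (mem_filter.2 ⟨mem_powerset.2 hT2, hTn, hT3, hT4, by omega, by omega⟩)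
      omega
    exact ⟨T, hT2, hTn, hT3, hT4, h4, by omega⟩

end Pool.Agent.SC
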