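import Mathlib
import Pool.Agent.SC.Stmts

/-!
# SC_ISO: the vertices outside `T` go into the independent set `I` (Hall's theorem)
-/

set_option autoImplicit false

namespace Pool.Agent.SC

open Finset Classical Pool.Agent.Sid86

namespace ISO

variable {V W : Type} {G : SimpleGraph V} {A T : Finset V} {H : SimpleGraph W} {I : Finset W}
  {f : V → W} {b : ℕ}

/-- the allowed positions of `y` -/
noncomputable def al (G : SimpleGraph V) (T : Finset V) (H : SimpleGraph W) (I : Finset W)
    (f : V → W) (y : V) : Finset W :=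
  I.filter (fun a => ∀ x ∈ T, G.Adj y x → ¬ H.Adj (f x) a)

theorem al_free {y : V} (h : dg G T y = 0) : al G T H I f y = I := by
  refine Finset.filter_true_of_mem fun a _ x hx hxy _ => ?_
  rw [dg, Finset.card_eq_zero] at h
  exact absurd (mem_filter.2 ⟨hx, hxy⟩) (h ▸ notMem_empty x)

theorem al_card (hcl : Closed G A T) (hb : ∀ x ∈ T, 0 < dg G (A \ T) x →
    dI H I (f x) + b ≤ I.card) {y : V} (hy : y ∈ A \ T) (h : 0 < dg G T y) :
    b ≤ (al G T H I f y).card := by
  obtain ⟨x, hx⟩ := card_pos.1 h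
  have hx' := mem_filter.1 hx
  have hone : ∀ z ∈ T, G.Adj y z → z = x := by
    intro z hz hyz
    have h1 : (T.filter (fun y' => G.Adj y y')).card ≤ 1 := hcl y hy
    exact card_le_one.1 h1 z (mem_filter.2 ⟨hz, hyz⟩) x hx
  have hpos : 0 < dg G (A \ T) x :=
    card_pos.2 ⟨y, mem_filter.2 ⟨hy, hx'.2.symm⟩⟩
  have h2 := hb x hx'.1 hpos
  have h3 : al G T H I f y = I.filter (fun a => ¬ H.Adj (f x) a) := by
    refine filter_congr fun a _ => ⟨fun h => h x hx'.1 hx'.2, fun h z hz hyz => ?_⟩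
    rw [hone z hz hyz]
    exact h
  have h4 : (I.filter (fun a => H.Adj (f x) a)).card +
      (I.filter (fun a => ¬ H.Adj (f x) a)).card = I.card :=
    card_filter_add_card_filter_not (fun a => H.Adj (f x) a)
  rw [h3]
  rw [dI] at h2
  omega

end ISO

open ISO in
theorem t_ISO : Stmt_ISO := by
  intro V W _ _ G A T H I f b hTA hcl hI hcard hf hfI hB hb
  have hall : ∀ X : Finset {y // y ∈ A \ T}, X.card ≤
      (X.biUnion fun y => al G T H I f y.1).card := by
    intro X
    by_cases h0 : ∃ y ∈ X, dg G T y.1 = 0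
    · obtain ⟨y, hy, hy0⟩ := h0
      have h1 : X.card ≤ (A \ T).card := by
        have h2 := card_le_univ X
        rwa [Fintype.card_coe] at h2
      have h2 : I ⊆ X.biUnion fun y => al G T H I f y.1 := by
        intro a ha
        rw [mem_biUnion]
        refine ⟨y, hy, ?_⟩
        rw [al_free hy0]
        exact ha
      exact h1.trans (hcard.trans (card_le_card h2))
    · have h1 : ∀ y ∈ X, 0 < dg G T y.1 := fun y hy =>
        Nat.pos_of_ne_zero fun h => h0 ⟨y, hy, h⟩
      have h2 : X.card ≤ b := by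
        refine le_trans ?_ hB
        rw [← card_map (Function.Embedding.subtype fun y => y ∈ A \ T)]
        refine card_le_card fun z hz => ?_
        obtain ⟨y, hy, rfl⟩ := mem_map.1 hz
        exact mem_filter.2 ⟨y.2, h1 y hy⟩
      rcases X.eq_empty_or_nonempty with rfl | ⟨y, hy⟩
      · exact Nat.zero_le _
      · have h3 : al G T H I f y.1 ⊆ X.biUnion fun y => al G T H I f y.1 := by
          intro a ha
          rw [mem_biUnion]
          exact ⟨y, hy, ha⟩
        exact h2.trans ((al_card hcl hb y.2 (h1 y hy)).trans (card_le_card h3))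
  obtain ⟨g, hg, hg2⟩ := (Finset.all_card_le_biUnion_card_iff_exists_injective
    (fun y : {y // y ∈ A \ T} => al G T H I f y.1)).1 hall
  have hgI : ∀ y, g y ∈ I := fun y => (mem_filter.1 (hg2 y)).1
  have hgn : ∀ y : {y // y ∈ A \ T}, ∀ x ∈ T, G.Adj y.1 x → ¬ H.Adj (f x) (g y) :=
    fun y => (mem_filter.1 (hg2 y)).2
  have hT : ∀ v ∈ A, v ∉ A \ T → v ∈ T := fun v hv h => by
    by_contra hn
    exact h (mem_sdiff.2 ⟨hv, hn⟩)
  refine ⟨fun v => if hv : v ∈ A \ T then g ⟨v, hv⟩ else f v, ?_, ?_⟩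
  · intro x hx y hy hxy
    have hx' : x ∈ A := hx
    have hy' : y ∈ A := hy
    simp only at hxy
    by_cases h1 : x ∈ A \ T <;> by_cases h2 : y ∈ A \ T
    · rw [dif_pos h1, dif_pos h2] at hxy
      exact congrArg Subtype.val (hg hxy)
    · rw [dif_pos h1, dif_neg h2] at hxy
      exact absurd (hxy ▸ hgI ⟨x, h1⟩) (hfI y (hT y hy' h2))
    · rw [dif_neg h1, dif_pos h2] at hxy
      exact absurd (hxy ▸ hgI ⟨y, h2⟩) (hfI x (hT x hx' h1))
    · rw [dif_neg h1, dif_neg h2] at hxy
      exact hf.1 (mem_coe.2 (hT x hx' h1)) (mem_coe.2 (hT y hy' h2)) hxy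
  · intro x hx y hy hxy
    simp only
    by_cases h1 : x ∈ A \ T <;> by_cases h2 : y ∈ A \ T
    · rw [dif_pos h1, dif_pos h2]
      exact hI _ (hgI _) _ (hgI _)
    · rw [dif_pos h1, dif_neg h2]
      exact fun h => hgn ⟨x, h1⟩ y (hT y hy h2) hxy h.symm
    · rw [dif_neg h1, dif_pos h2]
      exact hgn ⟨y, h2⟩ x (hT x hx h1) hxy.symm
    · rw [dif_neg h1, dif_neg h2]
      exact hf.2 x (hT x hx h1) y (hT y hy h2) hxy

end Pool.Agent.SC
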