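import Mathlib
import Pool.Agent.SC.Stmts

/-!
# BDC: double counting of the edges leaving `T`
-/

set_option autoImplicit false

namespace Pool.Agent.SC

open Finset Classical Pool.Agent.Sid86

namespace BDC

lemma dg_split {V : Type} (G : SimpleGraph V) {A T : Finset V} (hT : T ⊆ A) (x : V) :
    dg G A x = dg G T x + dg G (A \ T) x := by
  unfold dg
  rw [← card_union_of_disjoint, ← filter_union, union_sdiff_of_subset hT]
  exact disjoint_filter_filter disjoint_sdiff

lemma sum_comm' {V : Type} (G : SimpleGraph V) (S T : Finset V) :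
    ∑ y ∈ S, dg G T y = ∑ x ∈ T, dg G S x := by
  unfold dg
  simp only [card_filter]
  rw [sum_comm]
  refine sum_congr rfl fun x _ => sum_congr rfl fun y _ => ?_
  simp only [G.adj_comm]

end BDC

theorem t_BDC : Stmt_BDC := by
  intro V G A T b hc hT hb
  have h1 : ∑ x ∈ T, dg G (A \ T) x = b := by
    have h2 : ∑ x ∈ T, (dg G T x + dg G (A \ T) x) = 3 * T.card := by
      rw [sum_congr rfl fun x hx => (BDC.dg_split G hT x).symm,
        sum_congr rfl fun x hx => hc x (hT hx), sum_const, smul_eq_mul, mul_comm]
    rw [sum_add_distrib] at h2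
    unfold E2 at hb
    omega
  refine ⟨?_, h1⟩
  rw [← h1, ← BDC.sum_comm' G (A \ T) T, card_eq_sum_ones]
  refine (sum_le_sum fun y hy => ?_).trans
    (sum_le_sum_of_subset (filter_subset _ _))
  exact (mem_filter.1 hy).2

end Pool.Agent.SC
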