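import Mathlib
import Pool.Agent.SC.Stmts

set_option autoImplicit false

namespace Pool.Agent.SC

open Finset Classical Pool.Agent.Sid86

namespace MAIN

variable {V W : Type}

lemma exists_maxInd [Fintype W] (H : SimpleGraph W) : ∃ (I : Finset W) (s : ℕ), MaxInd H I s := by
  obtain ⟨I, hI, hmax⟩ := exists_max_image
    ((univ : Finset (Finset W)).filter (fun J => ∀ x ∈ J, ∀ y ∈ J, ¬ H.Adj x y))
    (fun J => J.card) ⟨∅, by simp⟩
  refine ⟨I, I.card, ⟨(mem_filter.1 hI).2, rfl, ?_⟩⟩
  intro J hJ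
  exact hmax J (mem_filter.2 ⟨mem_univ _, hJ⟩)

lemma E2_le (G : SimpleGraph V) (A T : Finset V) (hc : Cubic G A) (hT : T ⊆ A) :
    E2 G T ≤ 3 * T.card := by
  unfold E2
  calc ∑ x ∈ T, dg G T x ≤ ∑ x ∈ T, 3 := sum_le_sum (fun x hx => by
        rw [← hc x (hT hx)]; exact dg_mono G hT x)
    _ = 3 * T.card := by simp [mul_comm]

/-- `E2` is even -/
lemma even_E2 (G : SimpleGraph V) (A : Finset V) : Even (E2 G A) := by
  induction A using Finset.strongInduction with
  | H A ih =>
    by_cases hA : A = ∅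
    · subst hA
      simp [E2]
    · obtain ⟨u, hu⟩ := nonempty_iff_ne_empty.2 hA
      rw [E2_erase G hu]
      exact (ih _ (erase_ssubset hu)).add (even_two_mul _)

end MAIN

open MAIN

theorem no_ctx (hCON : Stmt_CON) (hLOW : Stmt_LOW) (hRG1 : Stmt_RG1) (hCLO : Stmt_CLO)
    (hBDC : Stmt_BDC) (hCAM : Stmt_CAM) (hCB1 : Stmt_CB1) (hCB2 : Stmt_CB2)
    {V W : Type} [Fintype W] [Nonempty W] (G : SimpleGraph V) (A : Finset V)
    (H : SimpleGraph W) (h : Ctx G A H) (hne : A.Nonempty) (h3 : ∀ x ∈ A, dg G A x ≤ 3) :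
    False := by
  have hE := h.dense
  have hcub : Cubic G A := by
    intro x hx
    by_contra hcon
    have hlt : dg G A x < 3 := lt_of_le_of_ne (h3 x hx) hcon
    have : E2 G A < 3 * A.card := by
      unfold E2
      calc ∑ y ∈ A, dg G A y < ∑ y ∈ A, 3 := sum_lt_sum h3 ⟨x, hx, hlt⟩
        _ = 3 * A.card := by simp [mul_comm]
    omega
  have hconn := hCON V W G A H h
  obtain ⟨I, s, hI⟩ := exists_maxInd H
  have hs4 := hLOW V W G A H I s h hcub hne hI
  have hks := hRG1 V W G A H I s h hcub hne hconn hI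
  have hsk : s < A.card := by
    rw [← hI.card]
    exact h.indep hI.ind
  have hE3 : E2 G A = 3 * A.card := le_antisymm (E2_le G A A hcub (Subset.refl _)) hE
  have hev : Even (3 * A.card) := hE3 ▸ even_E2 G A
  have hk6 : Even A.card := by
    rcases Nat.even_mul.1 hev with h1 | h1
    · exact absurd h1 (by decide)
    · exact h1
  obtain ⟨j, hj⟩ := hk6
  have hs5 : 5 ≤ s := by omega
  obtain ⟨T, hTA, hTne, hTconn, hTcl, hTt, hTe⟩ := hCLO V G A (A.card - s) hcub hconn hne
    (by omega) (by omega)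
  have hTE := E2_le G A T hcub hTA
  have hTnA : T ≠ A := by
    rintro rfl
    omega
  have hb0 : (3 * T.card - E2 G T) + E2 G T = 3 * T.card := by omega
  obtain ⟨hb1, hb2⟩ := hBDC V G A T _ hcub hTA hb0
  have hb : 1 ≤ 3 * T.card - E2 G T := by
    by_contra hcon
    have hz : 3 * T.card - E2 G T = 0 := by omega
    rw [hz] at hb2
    obtain ⟨x, hx, y, hy, hxy⟩ := hconn T hTA hTne hTnA
    have h0 := (sum_eq_zero_iff.1 hb2) x hx
    rw [dg, card_eq_zero, filter_eq_empty_iff] at h0
    exact h0 hy hxy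
  have hR : RII G A H I T s (3 * T.card - E2 G T) :=
    ⟨h, hcub, hI, hs5, hsk, hks, hTA, hTne, hTnA, hTconn, hTcl, by omega, by omega, hb0⟩
  by_cases hb' : 3 * T.card - E2 G T = 1
  · rw [hb'] at hR
    exact hCB1 V W G A H I T s hR
  · have h1 := hCAM V W G A H I T s _ hR
    have h2 := hCB2 V W G A H I T s _ hR (by omega)
    omega

theorem good_of_deg3 (hCON : Stmt_CON) (hLOW : Stmt_LOW) (hRG1 : Stmt_RG1) (hCLO : Stmt_CLO)
    (hBDC : Stmt_BDC) (hCAM : Stmt_CAM) (hCB1 : Stmt_CB1) (hCB2 : Stmt_CB2)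
    {V : Type} (G : SimpleGraph V) : ∀ (n : ℕ) (A : Finset V), A.card = n →
    (∀ x ∈ A, dg G A x ≤ 3) → Good G A := by
  intro n
  induction n using Nat.strong_induction_on with
  | _ n ih =>
    intro A hA hsp W _ _ H0 hH0 hcard
    by_cases hAe : A = ∅
    · subst hAe
      obtain ⟨w⟩ := ‹Nonempty W›
      exact ⟨fun _ => w, by simp [Set.InjOn], by simp⟩
    have hAne : A.Nonempty := nonempty_iff_ne_empty.2 hAe
    obtain ⟨H, hHH, hmax⟩ := (Set.toFinite {H : SimpleGraph W | TF H}).exists_le_maximal hH0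
    by_contra hno0
    have hno : ¬ ∃ f : V → W, Emb G H A f := by
      rintro ⟨f, hf1, hf2⟩
      exact hno0 ⟨f, hf1, fun u hu v hv huv hadj => hf2 u hu v hv huv (hHH hadj)⟩
    have hctx : Ctx G A H := by
      refine ⟨hmax.prop, ?_, hcard, hno, ?_⟩
      · intro x y hxy hnadj
        by_contra hcon
        push Not at hcon
        have hTF : TF (H ⊔ SimpleGraph.fromEdgeSet {s(x, y)}) :=
          tf_add hmax.prop hxy (fun z hz => hcon z hz.1 hz.2)
        have hle := hmax.le_of_ge hTF le_sup_left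
        apply hnadj
        apply hle
        rw [SimpleGraph.sup_adj]
        right
        rw [SimpleGraph.fromEdgeSet_adj]
        exact ⟨rfl, hxy⟩
      · intro S hS hSne
        have hlt : (A \ S).card < n := by
          have := card_sdiff_add_card_eq_card hS
          have := card_pos.2 hSne
          omega
        exact ih _ hlt (A \ S) rfl (fun x hx =>
          (dg_mono G sdiff_subset x).trans (hsp x (sdiff_subset hx)))
    exact no_ctx hCON hLOW hRG1 hCLO hBDC hCAM hCB1 hCB2 G A H hctx hAne hsp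

end Pool.Agent.SC
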