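import Pool.Agent.SC.Stmts

/-!
# ARI: the inequalities of case (4b)
-/

set_option autoImplicit false

namespace Pool.Agent.SC

namespace ARI

/-- The inequality `3 (b - 1) Z < (M + 1 - 2 b) (Z + 3 - 2 b)` with `b = c + 2`,
`M = m + 2 c + 4`, `Z = z + 2 c + 1`. -/
theorem key (c m z u : ℕ) (h1 : 4 * u ≤ m + 2 * c + 4) (h2 : 3 * c + 2 ≤ u)
    (h3 : 2 * u + 3 * c + 2 ≤ z + 2 * c + 1) :
    3 * (c + 1) * (z + 2 * c + 1) < (m + 1) * z := by
  have h4 : 10 * c + 4 ≤ m := by omega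
  have h5 : 7 * c + 5 ≤ z := by omega
  obtain ⟨m', rfl⟩ := Nat.exists_eq_add_of_le h4
  obtain ⟨z', rfl⟩ := Nat.exists_eq_add_of_le h5
  nlinarith [Nat.zero_le (m' * z'), Nat.zero_le (m' * c), Nat.zero_le (c * z'),
    Nat.zero_le (c * c), Nat.zero_le m', Nat.zero_le z', Nat.zero_le c]

end ARI

/-- ARI: the inequalities of case (4b). -/
theorem t_ARI : Stmt_ARI := by
  intro k s t E b M Z hs hsk h3 hk h4 hE hb h5 hM ht hZ hEt
  obtain ⟨u, rfl⟩ := Nat.exists_eq_add_of_le hsk.le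
  have hu : 1 ≤ u := by omega
  have hsu : 3 * u ≤ s := by omega
  have htu : u ≤ t := by omega
  have ht2 : t + b ≤ 2 * u + 2 := by omega
  have hMZ : 3 * s + 5 * u ≤ 2 * (M + Z) := by omega
  refine ⟨?_, fun hZs => ?_⟩
  · by_contra hn
    have h6 : s = 6 := by omega
    have h7 : b = 4 := by omega
    subst h6
    subst h7
    have h8 : u = 2 := by omega
    subst h8
    have h9 : Z * 3 + M ≤ 36 := hZ
    omega
  · obtain ⟨c, rfl⟩ := Nat.exists_eq_add_of_le' hb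
    have h6 : 3 * c + 2 ≤ u := by omega
    have h7 : 2 * u + 3 * c + 2 ≤ Z := by omega
    have h8 : 4 * u ≤ M := by omega
    obtain ⟨m, rfl⟩ : ∃ m, M = m + 2 * c + 4 := ⟨M - (2 * c + 4), by omega⟩
    obtain ⟨z, rfl⟩ : ∃ z, Z = z + 2 * c + 1 := ⟨Z - (2 * c + 1), by omega⟩
    refine ⟨by omega, by omega, by omega, ?_, by omega⟩
    have e1 : c + 2 - 1 = c + 1 := by omega
    have e2 : m + 2 * c + 4 + 1 - 2 * (c + 2) = m + 1 := by omega
    have e3 : z + 2 * c + 1 + 3 - 2 * (c + 2) = z := by omega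
    rw [e1, e2, e3]
    exact ARI.key c m z u h8 h6 h7

end Pool.Agent.SC
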