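import Mathlib
import Pool.Agent.SC.Stmts

/-!
# CAM: case (4a), the low part is large
-/

set_option autoImplicit false

namespace Pool.Agent.SC

open Finset Classical Pool.Agent.Sid86

/-- Case (4a): the low part `M` is large. -/
theorem t_CAM (hBDC : Stmt_BDC) (hISO : Stmt_ISO) : Stmt_CAM := by
  intro V W _ _ G A H I T s b hR
  by_contra hcon
  have hM : 2 * T.card + E2 G T ≤ 2 * (Mset H I s b).card := not_lt.1 hcon
  have hgood : Good G T := by
    have h1 := hR.ctx.ih (A \ T) sdiff_subset (by
      rw [sdiff_nonempty]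
      intro h
      exact hR.nA (Subset.antisymm hR.TA h))
    rwa [Finset.sdiff_sdiff_eq_self hR.TA] at h1
  have hMc : (univ \ Mset H I s b).card + (Mset H I s b).card = Fintype.card W := by
    rw [card_sdiff_add_card_eq_card (subset_univ _), card_univ]
  obtain ⟨f, hf, hfM⟩ := good_avoid hgood H hR.ctx.tf (univ \ Mset H I s b) (by omega)
  have hfM' : ∀ v ∈ T, f v ∈ Mset H I s b := by
    intro v hv
    have := hfM v hv
    simpa using this
  have hcard : (A \ T).card + T.card = A.card := card_sdiff_add_card_eq_card hR.TA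
  have hht := hR.ht
  have hIs := hR.mi.card
  obtain ⟨hb1, _⟩ := hBDC V G A T b hR.cub hR.TA hR.hb
  apply hR.ctx.no
  refine hISO V W G A T H I f b hR.TA hR.closed hR.mi.ind (by omega) hf ?_ hb1 ?_
  · intro x hx
    exact (mem_sdiff.1 (mem_filter.1 (hfM' x hx)).1).2
  · intro x hx _
    rw [hIs]
    exact (mem_filter.1 (hfM' x hx)).2

end Pool.Agent.SC
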