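import Mathlib
import Pool.Agent.SC.Stmts

/-!
# CB1: the case of one edge leaving `T`
-/

set_option autoImplicit false

namespace Pool.Agent.SC

open Finset Classical Pool.Agent.Sid86

namespace CB1

lemma E2_mono {V : Type} (G : SimpleGraph V) {A B : Finset V} (h : A ⊆ B) : E2 G A ≤ E2 G B := by
  unfold E2
  exact (sum_le_sum fun x _ => dg_mono G h x).trans (sum_le_sum_of_subset h)

/-- gluing: `g` on `TZ` with values in `Z`, `f` on the rest with values in `M` -/
lemma glue {V W : Type} {G : SimpleGraph V} {H : SimpleGraph W} {T TZ : Finset V}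
    {M Z : Finset W} {f g : V → W}
    (hTZ : TZ ⊆ T) (hf : Emb G H (T \ TZ) f) (hfM : ∀ v ∈ T \ TZ, f v ∈ M)
    (hg : Set.InjOn g TZ) (hgZ : ∀ v ∈ TZ, g v ∈ Z) (hMZ : ∀ x ∈ M, x ∉ Z)
    (hZ : ∀ z ∈ Z, ∀ y, y ∈ M ∨ y ∈ Z → ¬ H.Adj z y) :
    Emb G H T (fun v => if v ∈ TZ then g v else f v) := by
  constructor
  · intro x hx y hy hxy
    have hx' : x ∈ T := hx
    have hy' : y ∈ T := hy
    by_cases h1 : x ∈ TZ <;> by_cases h2 : y ∈ TZ <;> simp only [h1, h2, if_true, if_false] at hxy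
    · exact hg h1 h2 hxy
    · exact absurd (hgZ x h1) (by rw [hxy]; exact hMZ _ (hfM y (mem_sdiff.2 ⟨hy', h2⟩)))
    · exact absurd (hgZ y h2) (by rw [← hxy]; exact hMZ _ (hfM x (mem_sdiff.2 ⟨hx', h1⟩)))
    · exact hf.1 (mem_coe.2 (mem_sdiff.2 ⟨hx', h1⟩)) (mem_coe.2 (mem_sdiff.2 ⟨hy', h2⟩)) hxy
  · intro u hu v hv huv
    by_cases h1 : u ∈ TZ <;> by_cases h2 : v ∈ TZ <;> simp only [h1, h2, if_true, if_false]
    · exact hZ _ (hgZ u h1) _ (Or.inr (hgZ v h2))
    · exact hZ _ (hgZ u h1) _ (Or.inl (hfM v (mem_sdiff.2 ⟨hv, h2⟩)))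
    · intro h
      exact hZ _ (hgZ v h2) _ (Or.inl (hfM u (mem_sdiff.2 ⟨hu, h1⟩))) h.symm
    · exact hf.2 u (mem_sdiff.2 ⟨hu, h1⟩) v (mem_sdiff.2 ⟨hv, h2⟩) huv

lemma sum_one {V : Type} {T : Finset V} {F : V → ℕ} (h : ∑ x ∈ T, F x = 1) :
    ∃ x1 ∈ T, ∀ x ∈ T, 0 < F x → x = x1 := by
  have h0 : ∃ x1 ∈ T, 0 < F x1 := by
    by_contra hc
    push Not at hc
    have : ∑ x ∈ T, F x = 0 := sum_eq_zero (fun x hx => Nat.le_zero.1 (hc x hx))
    omega
  obtain ⟨x1, hx1, hp⟩ := h0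
  refine ⟨x1, hx1, ?_⟩
  intro x hx hxp
  by_contra hne
  have h2 : F x1 + F x ≤ ∑ y ∈ T, F y := by
    rw [← add_sum_erase T F hx1]
    have : F x ≤ ∑ y ∈ T.erase x1, F y :=
      single_le_sum (f := F) (fun _ _ => Nat.zero_le _) (mem_erase.2 ⟨hne, hx⟩)
    omega
  omega

end CB1

/-- Case `b = 1`. -/
theorem t_CB1 (hBDC : Stmt_BDC) (hISO : Stmt_ISO) (hZPR : Stmt_ZPR) : Stmt_CB1 := by
  intro V W _ _ G A H I T s hR
  obtain ⟨hb1, hbs⟩ := hBDC V G A T 1 hR.cub hR.TA hR.hb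
  obtain ⟨x1, hx1, hx1u⟩ := CB1.sum_one hbs
  obtain ⟨hZ1, hZ2⟩ := hZPR W H I s 1 hR.ctx.tf hR.mi
  have hs5 := hR.s5
  have hZind := hZ2 (by omega)
  set M := Mset H I s 1 with hM
  set Z := Zset H I s 1 with hZ
  have hMI : ∀ x ∈ M, x ∉ I := fun x hx => (mem_sdiff.1 (mem_filter.1 hx).1).2
  have hZI : ∀ x ∈ Z, x ∉ I := fun x hx => (mem_sdiff.1 (mem_filter.1 hx).1).2
  have hMZ : ∀ x ∈ M, x ∉ Z := by
    intro x hx hz
    have h1 := (mem_filter.1 hx).2
    have h2 := (mem_filter.1 hz).2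
    omega
  have hMZc : M.card + Z.card = (univ \ I).card := by
    have := card_filter_add_card_filter_not (s := univ \ I) (fun y => dI H I y + 1 ≤ s)
    rw [hM, hZ]
    unfold Mset Zset
    simp only [not_le] at this
    exact this
  have hBc : (univ \ I).card + I.card = Fintype.card W := by
    rw [card_sdiff_add_card_eq_card (subset_univ _), card_univ]
  have hIs := hR.mi.card
  have hZno : ∀ z ∈ Z, ∀ y, y ∉ I → ¬ H.Adj z y := by
    intro z hz y hy hzy
    have h1 := hZ1 z hz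
    have h2 : 0 < ((univ \ I).filter (fun y => H.Adj z y)).card :=
      card_pos.2 ⟨y, mem_filter.2 ⟨mem_sdiff.2 ⟨mem_univ _, hy⟩, hzy⟩⟩
    omega
  have hZs : Z.card ≤ s := hR.mi.max Z (fun x hx y hy => hZno x hx y (hZI y hy))
  have hEA : E2 G A = 3 * A.card := by
    unfold E2
    rw [sum_congr rfl (fun x hx => hR.cub x hx), sum_const, smul_eq_mul, mul_comm]
  have hctx := hR.ctx.card
  have hsk := hR.sk
  have hks := hR.ks
  have hht := hR.ht
  have hhe := hR.he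
  have hhb := hR.hb
  have hTpos : 1 ≤ T.card := card_pos.2 hR.ne
  have hAT : (A \ T).card + T.card = A.card := card_sdiff_add_card_eq_card hR.TA
  have hATne : (A \ T).Nonempty := by
    rw [sdiff_nonempty]
    intro h
    exact hR.nA (Subset.antisymm hR.TA h)
  -- the set put into `Z`
  have hT1 : (T.erase x1).card + 1 = T.card := card_erase_add_one hx1
  obtain ⟨TZ, hTZ, hTZc⟩ := exists_subset_card_eq (s := T.erase x1)
    (n := min Z.card (T.card - 1)) (by
      have := min_le_right Z.card (T.card - 1)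
      omega)
  have hTZT : TZ ⊆ T := hTZ.trans (erase_subset _ _)
  have hx1n : x1 ∉ TZ := fun h => (mem_erase.1 (hTZ h)).1 rfl
  obtain ⟨g, hgZ, hg⟩ := exists_injOn (S := TZ) (P := Z) (by
    rw [hTZc]; exact min_le_left _ _)
  have hgood : Good G (T \ TZ) := by
    have h1 := hR.ctx.ih (A \ (T \ TZ)) sdiff_subset (by
      obtain ⟨y, hy⟩ := hATne
      exact ⟨y, mem_sdiff.2 ⟨(mem_sdiff.1 hy).1,
        fun h => (mem_sdiff.1 hy).2 (mem_sdiff.1 h).1⟩⟩)
    rwa [Finset.sdiff_sdiff_eq_self (sdiff_subset.trans hR.TA)] at h1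
  have hTZ2 : (T \ TZ).card + TZ.card = T.card := card_sdiff_add_card_eq_card hTZT
  have hMc : (univ \ M).card + M.card = Fintype.card W := by
    rw [card_sdiff_add_card_eq_card (subset_univ _), card_univ]
  have hkey : 2 * (T \ TZ).card + E2 G (T \ TZ) ≤ 2 * M.card := by
    rcases le_total Z.card (T.card - 1) with hle | hle
    · rw [min_eq_left hle] at hTZc
      have h1 := CB1.E2_mono G (sdiff_subset (s := T) (t := TZ))
      omega
    · rw [min_eq_right hle] at hTZc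
      have h1 : (T \ TZ).card = 1 := by omega
      obtain ⟨y, hy⟩ := card_eq_one.1 h1
      have h2 : E2 G (T \ TZ) = 0 := by
        rw [hy]
        unfold E2 dg
        rw [sum_singleton, card_eq_zero, filter_eq_empty_iff]
        intro z hz hadj
        rw [mem_singleton.1 hz] at hadj
        exact hadj.ne rfl
      omega
  obtain ⟨f, hf, hfM⟩ := good_avoid hgood H hR.ctx.tf (univ \ M) (by omega)
  have hfM' : ∀ v ∈ T \ TZ, f v ∈ M := by
    intro v hv
    have := hfM v hv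
    simpa using this
  have hF := CB1.glue (G := G) (H := H) hTZT hf hfM' hg hgZ hMZ (by
    intro z hz y hy
    rcases hy with hy | hy
    · exact hZno z hz y (hMI y hy)
    · exact hZno z hz y (hZI y hy))
  apply hR.ctx.no
  refine hISO V W G A T H I _ 1 hR.TA hR.closed hR.mi.ind (by omega) hF ?_ hb1 ?_
  · intro x hx
    by_cases h : x ∈ TZ
    · simp only [h, if_true]
      exact hZI _ (hgZ x h)
    · simp only [h, if_false]
      exact hMI _ (hfM' x (mem_sdiff.2 ⟨hx, h⟩))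
  · intro x hx hp
    have hxx := hx1u x hx hp
    subst hxx
    simp only [hx1n, if_false]
    rw [hIs]
    exact (mem_filter.1 (hfM' x (mem_sdiff.2 ⟨hx, hx1n⟩))).2

end Pool.Agent.SC
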