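import Mathlib
import Pool.Agent.SC.Stmts

/-!
# Case (4b), `b ≥ 2` (CB2)
-/

set_option autoImplicit false

namespace Pool.Agent.SC

open Finset Classical Pool.Agent.Sid86

namespace CB2

lemma dg_split {V : Type} (G : SimpleGraph V) {A T : Finset V} (hT : T ⊆ A) (x : V) :
    dg G A x = dg G T x + dg G (A \ T) x := by
  unfold dg
  rw [← card_union_of_disjoint]
  · congr 1
    ext y
    simp only [mem_filter, mem_union, mem_sdiff]
    constructor
    · rintro ⟨h1, h2⟩
      by_cases h : y ∈ T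
      · exact Or.inl ⟨h, h2⟩
      · exact Or.inr ⟨⟨h1, h⟩, h2⟩
    · rintro (⟨h1, h2⟩ | ⟨⟨h1, _⟩, h2⟩)
      · exact ⟨hT h1, h2⟩
      · exact ⟨h1, h2⟩
  · rw [disjoint_left]
    intro y h1 h2
    simp only [mem_filter, mem_sdiff] at h1 h2
    exact h2.1.2 h1.1

lemma E2_le {V : Type} (G : SimpleGraph V) (T : Finset V) : E2 G T ≤ T.card * (T.card - 1) := by
  unfold E2
  calc ∑ x ∈ T, dg G T x ≤ ∑ _x ∈ T, (T.card - 1) := by
        refine sum_le_sum fun x hx => ?_
        unfold dg
        rw [← card_erase_of_mem hx]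
        refine card_le_card fun y hy => ?_
        simp only [mem_filter] at hy
        rw [mem_erase]
        exact ⟨fun h => G.loopless.irrefl x (h ▸ hy.2), hy.1⟩
    _ = T.card * (T.card - 1) := by rw [sum_const, smul_eq_mul]

lemma double {W : Type} (H : SimpleGraph W) (P Z : Finset W) :
    ∑ p ∈ P, (Z.filter (fun z => H.Adj p z)).card = ∑ z ∈ Z, (P.filter (fun p => H.Adj z p)).card := by
  simp_rw [card_filter]
  rw [sum_comm]
  refine sum_congr rfl fun z _ => sum_congr rfl fun p _ => ?_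
  simp only [H.adj_comm z p]

end CB2

theorem t_CB2 (hBDC : Stmt_BDC) (hISO : Stmt_ISO) (hINN : Stmt_INN) (hCNT : Stmt_CNT)
    (hZPR : Stmt_ZPR) (hARI : Stmt_ARI) : Stmt_CB2 := by
  intro V W _ _ G A H I T s b hR hb2
  by_contra hM0
  have hM : 2 * (Mset H I s b).card < 2 * T.card + E2 G T := by omega
  obtain ⟨M, hMdef⟩ : ∃ M, M = Mset H I s b := ⟨_, rfl⟩
  obtain ⟨Z, hZdef⟩ : ∃ Z, Z = Zset H I s b := ⟨_, rfl⟩
  rw [← hMdef] at hM
  have hTF := hR.ctx.tf
  -- the partition of the complement of `I`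
  have hMZ : M ∪ Z = univ \ I := by
    rw [hMdef, hZdef]
    unfold Mset Zset
    ext y
    simp only [mem_union, mem_filter]
    constructor
    · rintro (h | h)
      · exact h.1
      · exact h.1
    · intro h
      rcases Nat.lt_or_ge s (dI H I y + b) with h1 | h1
      · exact Or.inr ⟨h, h1⟩
      · exact Or.inl ⟨h, h1⟩
  have hMZd : Disjoint M Z := by
    rw [disjoint_left, hMdef, hZdef]
    unfold Mset Zset
    intro y h1 h2
    simp only [mem_filter] at h1 h2
    omega
  have hMI : ∀ y ∈ M, y ∉ I := fun y hy => by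
    have h1 : y ∈ univ \ I := hMZ ▸ mem_union_left _ hy
    rw [mem_sdiff] at h1
    exact h1.2
  have hZI : ∀ y ∈ Z, y ∉ I := fun y hy => by
    have h1 : y ∈ univ \ I := hMZ ▸ mem_union_right _ hy
    rw [mem_sdiff] at h1
    exact h1.2
  have hMs : ∀ y ∈ M, dI H I y + b ≤ s := fun y hy => by
    rw [hMdef] at hy
    unfold Mset at hy
    exact (mem_filter.mp hy).2
  have hZs : ∀ y ∈ Z, s < dI H I y + b := fun y hy => by
    rw [hZdef] at hy
    unfold Zset at hy
    exact (mem_filter.mp hy).2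
  have hcardW : Fintype.card W = s + (M.card + Z.card) := by
    have h1 : (univ \ I).card + I.card = (univ : Finset W).card :=
      card_sdiff_add_card_eq_card (subset_univ I)
    rw [← hMZ, card_union_of_disjoint hMZd, hR.mi.card, card_univ] at h1
    omega
  have hE2A : E2 G A = 3 * A.card := by
    unfold E2
    rw [sum_congr rfl fun x hx => hR.cub x hx, sum_const, smul_eq_mul, mul_comm]
  have hcard := hR.ctx.card
  rw [hE2A] at hcard
  -- counting
  obtain ⟨hc1, hc2⟩ := hCNT W H I s hTF hR.mi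
  have hcnt : Z.card * (s + 1 - b) + M.card ≤ s * s := by
    refine le_trans ?_ hc1
    rw [← hMZ, sum_union hMZd]
    have h1 : M.card ≤ ∑ y ∈ M, dI H I y := by
      rw [card_eq_sum_ones]
      exact sum_le_sum fun y hy => hc2 y (hMZ ▸ mem_union_left _ hy)
    have h2 : Z.card * (s + 1 - b) ≤ ∑ y ∈ Z, dI H I y := by
      rw [← smul_eq_mul, ← sum_const]
      refine sum_le_sum fun y hy => ?_
      have := hZs y hy
      omega
    omega
  have htne : 1 ≤ T.card := card_pos.mpr hR.ne
  obtain ⟨ha1, ha2⟩ := hARI A.card s T.card (E2 G T) b M.card Z.card hR.s5 hR.sk hR.ks hR.ht hR.he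
    hR.hb hb2 (by omega) hM htne hcnt (CB2.E2_le G T)
  obtain ⟨hz1, hz2⟩ := hZPR W H I s b hTF hR.mi
  rw [← hZdef] at hz1 hz2
  have hZind := hz2 ha1
  obtain ⟨h2t, h2tZ, h2bZ, hari, h2bM⟩ := ha2 (hR.mi.max Z hZind)
  -- the outer vertices
  obtain ⟨D, hDdef⟩ : ∃ D, D = T.filter (fun x => 0 < dg G (A \ T) x) := ⟨_, rfl⟩
  have hDT : D ⊆ T := by
    rw [hDdef]
    exact filter_subset _ _
  have hsplit : ∀ x ∈ T, dg G T x + dg G (A \ T) x = 3 := fun x hx => by
    rw [← CB2.dg_split G hR.TA x]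
    exact hR.cub x (hR.TA hx)
  obtain ⟨hbd1, hbd2⟩ := hBDC V G A T b hR.cub hR.TA hR.hb
  have hDsum : ∑ x ∈ D, dg G (A \ T) x = b := by
    rw [← hbd2, hDdef, sum_filter]
    refine sum_congr rfl fun x _ => ?_
    split_ifs with h
    · rfl
    · omega
  have hDpos : ∀ x ∈ D, 0 < dg G (A \ T) x := fun x hx => by
    rw [hDdef] at hx
    exact (mem_filter.mp hx).2
  have hDb : D.card ≤ b := by
    rw [← hDsum, card_eq_sum_ones]
    exact sum_le_sum fun x hx => hDpos x hx
  have hdeg1 : ∀ x ∈ T, 1 ≤ dg G T x := by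
    intro x hx
    have hne : ({x} : Finset V) ≠ T := fun h => by
      rw [← h, card_singleton] at h2t
      omega
    obtain ⟨x', hx', y, hy, hxy⟩ := hR.conn {x} (singleton_subset_iff.mpr hx)
      (singleton_nonempty x) hne
    rw [mem_singleton] at hx'
    subst hx'
    refine card_pos.mpr ⟨y, ?_⟩
    rw [mem_filter]
    exact ⟨(mem_sdiff.mp hy).1, hxy⟩
  have hb2D : b ≤ 2 * D.card := by
    rw [← hDsum, mul_comm, ← smul_eq_mul, ← sum_const]
    refine sum_le_sum fun x hx => ?_
    have h1 := hsplit x (hDT hx)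
    have h3 := hdeg1 x (hDT hx)
    omega
  -- the good positions for the outer vertices
  obtain ⟨l, hl⟩ : ∃ l, l = (Z.card - 2 * (b - 1)) / 3 := ⟨_, rfl⟩
  obtain ⟨M', hM'⟩ : ∃ M', M' = M.filter (fun p => (Z.filter (fun z => H.Adj p z)).card ≤ l) :=
    ⟨_, rfl⟩
  have hM'M : M' ⊆ M := by
    rw [hM']
    exact filter_subset _ _
  have hM'2 : 2 * b ≤ M'.card := by
    by_contra hlt
    have e1 : (M \ M').card + M'.card = M.card := card_sdiff_add_card_eq_card hM'M
    have e2 : (M.card + 1 - 2 * b) * (l + 1) ≤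
        ∑ p ∈ M \ M', (Z.filter (fun z => H.Adj p z)).card := by
      have e3 : ∑ _p ∈ M \ M', (l + 1) ≤ ∑ p ∈ M \ M', (Z.filter (fun z => H.Adj p z)).card := by
        refine sum_le_sum fun p hp => ?_
        rw [mem_sdiff, hM', mem_filter] at hp
        by_contra hc
        exact hp.2 ⟨hp.1, by omega⟩
      rw [sum_const, smul_eq_mul] at e3
      refine le_trans (Nat.mul_le_mul_right _ ?_) e3
      omega
    have e4 : ∑ p ∈ M \ M', (Z.filter (fun z => H.Adj p z)).card ≤ (b - 1) * Z.card := by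
      rw [CB2.double, mul_comm, ← smul_eq_mul, ← sum_const]
      refine sum_le_sum fun z hz => ?_
      have h1 := hz1 z hz
      have h3 : ((M \ M').filter (fun p => H.Adj z p)).card ≤
          ((univ \ I).filter (fun y => H.Adj z y)).card := by
        refine card_le_card (filter_subset_filter _ ?_)
        intro y hy
        rw [← hMZ]
        exact mem_union_left _ (mem_sdiff.mp hy).1
      omega
    have e5 : Z.card + 3 - 2 * b ≤ 3 * (l + 1) := by omega
    have e6 : (M.card + 1 - 2 * b) * (Z.card + 3 - 2 * b) ≤ 3 * ((b - 1) * Z.card) := by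
      calc (M.card + 1 - 2 * b) * (Z.card + 3 - 2 * b)
          ≤ (M.card + 1 - 2 * b) * (3 * (l + 1)) := Nat.mul_le_mul_left _ e5
        _ = 3 * ((M.card + 1 - 2 * b) * (l + 1)) := by ring
        _ ≤ 3 * ((b - 1) * Z.card) := Nat.mul_le_mul_left _ (e2.trans e4)
    rw [← mul_assoc] at e6
    omega
  have hGD : Good G D := by
    have h1 : A \ (A \ D) = D := Finset.sdiff_sdiff_eq_self (hDT.trans hR.TA)
    rw [← h1]
    refine hR.ctx.ih _ sdiff_subset ?_
    obtain ⟨a, ha⟩ : ∃ a, a ∈ A \ T := by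
      by_contra hc
      push Not at hc
      refine hR.nA (subset_antisymm hR.TA fun a ha => ?_)
      by_contra hat
      exact hc a (mem_sdiff.mpr ⟨ha, hat⟩)
    exact ⟨a, mem_sdiff.mpr ⟨(mem_sdiff.mp ha).1, fun h => (mem_sdiff.mp ha).2 (hDT h)⟩⟩
  have hE2D : E2 G D + b ≤ 3 * D.card := by
    have h1 : E2 G D ≤ ∑ x ∈ D, dg G T x := sum_le_sum fun x _ => dg_mono G hDT x
    have h3 : ∑ x ∈ D, dg G T x + ∑ x ∈ D, dg G (A \ T) x = 3 * D.card := by
      rw [← sum_add_distrib, sum_congr rfl fun x hx => hsplit x (hDT hx), sum_const, smul_eq_mul,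
        mul_comm]
    omega
  obtain ⟨f, hf1, hf2⟩ := good_avoid hGD H hTF (univ \ M') (by
    have h1 : (univ \ M').card + M'.card = (univ : Finset W).card :=
      card_sdiff_add_card_eq_card (subset_univ M')
    rw [card_univ] at h1
    omega)
  have hf2' : ∀ v ∈ D, f v ∈ M' := fun v hv => by
    have h1 := hf2 v hv
    rw [mem_sdiff] at h1
    by_contra hc
    exact h1 ⟨mem_univ _, hc⟩
  -- the inner vertices
  have hTD : (T \ D).card + D.card = T.card := card_sdiff_add_card_eq_card hDT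
  obtain ⟨f', hf'1, hf'2, hf'3⟩ := hINN V W G T D H Z f (b - 1) l hDT hZind hf1
    (fun x hx h => (disjoint_left.mp hMZd) (hM'M (hf2' x hx)) h) (by omega)
    (fun w hw => by
      have h1 : dg G D w ≤ dg G A w := dg_mono G (hDT.trans hR.TA) w
      rw [hR.cub w (hR.TA (mem_sdiff.mp hw).1)] at h1
      exact h1)
    (fun x hx => by
      have h1 : dg G (T \ D) x ≤ dg G T x := dg_mono G sdiff_subset x
      have h3 := hsplit x (hDT hx)
      have h4 := hDpos x hx
      omega)
    (fun x hx => by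
      have h1 := hf2' x hx
      rw [hM', mem_filter] at h1
      exact h1.2)
    (fun z hz => by
      have h1 := hz1 z hz
      have h3 : (D.filter (fun x => H.Adj z (f x))).card ≤
          ((univ \ I).filter (fun y => H.Adj z y)).card := by
        refine card_le_card_of_injOn f ?_ ?_
        · intro x hx
          simp only [coe_filter, Set.mem_ofPred_eq] at hx
          simp only [coe_filter, Set.mem_ofPred_eq]
          exact ⟨hMZ ▸ mem_union_left _ (hM'M (hf2' x hx.1)), hx.2⟩
        · intro x hx y hy hxy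
          simp only [coe_filter, Set.mem_ofPred_eq] at hx hy
          exact hf1.1 hx.1 hy.1 hxy
      omega)
    (by omega)
  obtain ⟨f'', hf''⟩ := hISO V W G A T H I f' b hR.TA hR.closed hR.mi.ind (by
      have h1 : (A \ T).card + T.card = A.card := card_sdiff_add_card_eq_card hR.TA
      have h3 := hR.ht
      rw [hR.mi.card]
      omega) hf'1
    (fun x hx => by
      by_cases h : x ∈ D
      · rw [hf'2 x h]
        exact hMI _ (hM'M (hf2' x h))
      · exact hZI _ (hf'3 x (mem_sdiff.mpr ⟨hx, h⟩)))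
    hbd1
    (fun x hx hpos => by
      have h : x ∈ D := by
        rw [hDdef, mem_filter]
        exact ⟨hx, hpos⟩
      rw [hf'2 x h, hR.mi.card]
      exact hMs _ (hM'M (hf2' x h)))
  exact hR.ctx.no ⟨f'', hf''⟩

end Pool.Agent.SC
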