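import Mathlib
import Pool.Agent.SC.Stmts

/-!
# Counting the edges between `I` and its complement
-/

set_option autoImplicit false

namespace Pool.Agent.SC

open Finset Classical Pool.Agent.Sid86

theorem t_CNT : Stmt_CNT := by
  intro W _ H I s hTF hI
  constructor
  · have h1 : ∑ y ∈ univ \ I, dI H I y
        = ∑ z ∈ I, ((univ \ I).filter (fun y => H.Adj y z)).card := by
      unfold dI
      simp only [Finset.card_filter]
      rw [Finset.sum_comm]
    rw [h1]
    have h2 : ∀ z ∈ I, ((univ \ I).filter (fun y => H.Adj y z)).card ≤ s := by
      intro z _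
      refine hI.max _ ?_
      intro x hx y hy hxy
      have hx' := (mem_filter.1 hx).2
      have hy' := (mem_filter.1 hy).2
      exact hTF x y z hxy hy' hx'
    calc ∑ z ∈ I, ((univ \ I).filter (fun y => H.Adj y z)).card
        ≤ ∑ _z ∈ I, s := Finset.sum_le_sum h2
      _ = s * s := by rw [Finset.sum_const, smul_eq_mul, hI.card]
  · intro y hy
    by_contra hlt
    have h0 : dI H I y = 0 := by omega
    unfold dI at h0
    have h0' := Finset.card_eq_zero.1 h0
    have hno : ∀ z ∈ I, ¬ H.Adj y z := by
      intro z hz hyz
      have : z ∈ I.filter (fun z => H.Adj y z) := mem_filter.2 ⟨hz, hyz⟩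
      rw [h0'] at this
      exact absurd this (Finset.notMem_empty z)
    have hyI : y ∉ I := (mem_sdiff.1 hy).2
    have hle := hI.max (insert y I) (by
      intro a ha b hb hab
      rcases mem_insert.1 ha with rfl | ha'
      · rcases mem_insert.1 hb with rfl | hb'
        · exact hab.ne rfl
        · exact hno b hb' hab
      · rcases mem_insert.1 hb with rfl | hb'
        · exact hno a ha' hab.symm
        · exact hI.ind a ha' b hb' hab)
    rw [card_insert_of_notMem hyI, hI.card] at hle
    omega

end Pool.Agent.SC
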