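import Mathlib
import Pool.Agent.SC.Stmts

/-!
# MP_c6effb_co: module SC_CON, a minimal counterexample is connected
-/

set_option autoImplicit false

namespace Pool.Agent.SC

open Finset Classical Pool.Agent.Sid86

namespace CON

lemma E2_mono {V : Type} (G : SimpleGraph V) {A B : Finset V} (h : A ⊆ B) :
    E2 G A ≤ E2 G B := by
  unfold E2
  calc ∑ x ∈ A, dg G A x ≤ ∑ x ∈ A, dg G B x := sum_le_sum (fun x _ => dg_mono G h x)
    _ ≤ ∑ x ∈ B, dg G B x := sum_le_sum_of_subset h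

end CON

theorem t_CON : Stmt_CON := by
  intro V W _ _ G A H h X hXA hXne hXA'
  by_contra hcon
  have hno : ∀ x ∈ X, ∀ y ∈ A \ X, ¬ G.Adj x y := by
    intro x hx y hy hxy
    exact hcon ⟨x, hx, y, hy, hxy⟩
  have hSne : (A \ X).Nonempty := by
    rw [sdiff_nonempty]
    exact fun hAX => hXA' (Subset.antisymm hXA hAX)
  have g1 : Good G X := by
    have := h.ih (A \ X) sdiff_subset hSne
    rwa [Finset.sdiff_sdiff_eq_self hXA] at this
  have g2 : Good G (A \ X) := h.ih X hXA hXne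
  have hc : (A \ X).card + X.card = A.card := card_sdiff_add_card_eq_card hXA
  have e1 := CON.E2_mono G hXA
  have e2 := CON.E2_mono G (sdiff_subset : A \ X ⊆ A)
  have hcard := h.card
  obtain ⟨f, hf1, hf2⟩ := g1 W H h.tf (by omega)
  have hZ : (X.image f).card ≤ X.card := card_image_le
  obtain ⟨g, ⟨hg1, hg2⟩, hgZ⟩ := good_avoid g2 H h.tf (X.image f) (by omega)
  have hfg : ∀ x ∈ X, ∀ y ∈ A \ X, f x ≠ g y := by
    intro x hx y hy hxy
    exact hgZ y hy (hxy ▸ mem_image_of_mem f hx)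
  apply h.no
  refine ⟨fun v => if v ∈ X then f v else g v, ?_, ?_⟩
  · intro x hx y hy hxy
    have hx' : x ∈ A := hx
    have hy' : y ∈ A := hy
    simp only at hxy
    by_cases hxX : x ∈ X <;> by_cases hyX : y ∈ X
    · rw [if_pos hxX, if_pos hyX] at hxy
      exact hf1 hxX hyX hxy
    · rw [if_pos hxX, if_neg hyX] at hxy
      exact absurd hxy (hfg x hxX y (mem_sdiff.2 ⟨hy', hyX⟩))
    · rw [if_neg hxX, if_pos hyX] at hxy
      exact absurd hxy.symm (hfg y hyX x (mem_sdiff.2 ⟨hx', hxX⟩))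
    · rw [if_neg hxX, if_neg hyX] at hxy
      exact hg1 (mem_coe.2 (mem_sdiff.2 ⟨hx', hxX⟩)) (mem_coe.2 (mem_sdiff.2 ⟨hy', hyX⟩)) hxy
  · intro x hx y hy hxy
    simp only
    by_cases hxX : x ∈ X <;> by_cases hyX : y ∈ X
    · rw [if_pos hxX, if_pos hyX]
      exact hf2 x hxX y hyX hxy
    · exact absurd hxy (hno x hxX y (mem_sdiff.2 ⟨hy, hyX⟩))
    · exact absurd hxy.symm (hno y hyX x (mem_sdiff.2 ⟨hx, hxX⟩))
    · rw [if_neg hxX, if_neg hyX]
      exact hg2 x (mem_sdiff.2 ⟨hx, hxX⟩) y (mem_sdiff.2 ⟨hy, hyX⟩) hxy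

end Pool.Agent.SC
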