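import Pool.Agent.SC.Stmts

/-!
# INN: putting the inner vertices into the independent set `Z` (Hall)
-/

set_option autoImplicit false

namespace Pool.Agent.SC

open Finset Classical Pool.Agent.Sid86

namespace INN

variable {V W : Type}

/-- the allowed positions of `w` -/
noncomputable def al (G : SimpleGraph V) (D : Finset V) (H : SimpleGraph W) (Z : Finset W)
    (f : V → W) (w : V) : Finset W :=
  Z.filter (fun z => ∀ x ∈ D, G.Adj w x → ¬ H.Adj (f x) z)

theorem card_al {G : SimpleGraph V} {D : Finset V} {H : SimpleGraph W} {Z : Finset W}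
    {f : V → W} {w : V} {l : ℕ} (h3 : dg G D w ≤ 3)
    (hl : ∀ x ∈ D, (Z.filter (fun z => H.Adj (f x) z)).card ≤ l) :
    Z.card ≤ (al G D H Z f w).card + 3 * l := by
  have h1 : Z \ al G D H Z f w ⊆
      (D.filter (fun x => G.Adj w x)).biUnion (fun x => Z.filter (fun z => H.Adj (f x) z)) := by
    intro z hz
    obtain ⟨hzZ, hza⟩ := mem_sdiff.1 hz
    have h2 : ¬ ∀ x ∈ D, G.Adj w x → ¬ H.Adj (f x) z := fun h => hza (mem_filter.2 ⟨hzZ, h⟩)
    push Not at h2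
    obtain ⟨x, hx, hwx, hxz⟩ := h2
    exact mem_biUnion.2 ⟨x, mem_filter.2 ⟨hx, hwx⟩, mem_filter.2 ⟨hzZ, hxz⟩⟩
  have h2 := (card_le_card h1).trans (card_biUnion_le_card_mul _ _ l fun x hx =>
    hl x (mem_filter.1 hx).1)
  have h4 : (D.filter (fun x => G.Adj w x)).card * l ≤ 3 * l := Nat.mul_le_mul_right _ h3
  have h5 : (Z \ al G D H Z f w).card + (al G D H Z f w).card = Z.card :=
    card_sdiff_add_card_eq_card (filter_subset _ _)
  omega

end INN

open INN in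
theorem t_INN : Stmt_INN := by
  intro V W _ _ G T D H Z f c l hDT hZ hf hfZ hTZ h3 h2 hl hc hcl
  have hall : ∀ s : Finset {w // w ∈ T \ D}, s.card ≤
      (s.biUnion (fun w => al G D H Z f w.1)).card := by
    intro s
    rcases s.eq_empty_or_nonempty with rfl | ⟨w, hw⟩
    · simp
    by_cases hz : ∀ z ∈ Z, z ∈ s.biUnion (fun w => al G D H Z f w.1)
    · have h4 : s.card ≤ (T \ D).card := by
        have h5 := card_le_univ s
        rwa [Fintype.card_coe] at h5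
      exact h4.trans (hTZ.trans (card_le_card hz))
    · push Not at hz
      obtain ⟨z, hzZ, hzs⟩ := hz
      have h4 : s.image Subtype.val ⊆ (D.filter (fun x => H.Adj z (f x))).biUnion
          (fun x => (T \ D).filter (fun y => G.Adj x y)) := by
        intro y hy
        obtain ⟨y', hy', rfl⟩ := mem_image.1 hy
        have h5 : z ∉ al G D H Z f y'.1 := fun h => hzs (mem_biUnion.2 ⟨y', hy', h⟩)
        have h6 : ¬ ∀ x ∈ D, G.Adj y'.1 x → ¬ H.Adj (f x) z :=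
          fun h => h5 (mem_filter.2 ⟨hzZ, h⟩)
        push Not at h6
        obtain ⟨x, hx, hyx, hxz⟩ := h6
        exact mem_biUnion.2 ⟨x, mem_filter.2 ⟨hx, hxz.symm⟩, mem_filter.2 ⟨y'.2, hyx.symm⟩⟩
      have h5 := (card_le_card h4).trans (card_biUnion_le_card_mul _ _ 2 fun x hx =>
        h2 x (mem_filter.1 hx).1)
      rw [card_image_of_injective _ Subtype.val_injective] at h5
      have h6 := hc z hzZ
      have h7 : (al G D H Z f w.1).card ≤ (s.biUnion (fun w => al G D H Z f w.1)).card :=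
        card_le_card (subset_biUnion_of_mem (fun w : {w // w ∈ T \ D} => al G D H Z f w.1) hw)
      have h8 := card_al (G := G) (D := D) (H := H) (Z := Z) (f := f) (w := w.1) (l := l)
        (h3 w.1 w.2) hl
      omega
  obtain ⟨g, hg, hga⟩ := (all_card_le_biUnion_card_iff_exists_injective _).1 hall
  have hgZ : ∀ w, g w ∈ Z := fun w => (mem_filter.1 (hga w)).1
  have hgD : ∀ w, ∀ x ∈ D, G.Adj w.1 x → ¬ H.Adj (f x) (g w) :=
    fun w => (mem_filter.1 (hga w)).2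
  let f' : V → W := fun v => if h : v ∈ T \ D then g ⟨v, h⟩ else f v
  have e1 : ∀ v, v ∈ D → f' v = f v := fun v hv => dif_neg fun h => (mem_sdiff.1 h).2 hv
  have e2 : ∀ v (h : v ∈ T \ D), f' v = g ⟨v, h⟩ := fun v h => dif_pos h
  refine ⟨f', ⟨?_, ?_⟩, e1, fun x hx => ?_⟩
  · intro x hx y hy hxy
    have hx' : x ∈ T := hx
    have hy' : y ∈ T := hy
    by_cases hxD : x ∈ D <;> by_cases hyD : y ∈ D
    · rw [e1 x hxD, e1 y hyD] at hxy
      exact hf.1 hxD hyD hxy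
    · rw [e1 x hxD, e2 y (mem_sdiff.2 ⟨hy', hyD⟩)] at hxy
      exact absurd (hxy ▸ hgZ _) (hfZ x hxD)
    · rw [e1 y hyD, e2 x (mem_sdiff.2 ⟨hx', hxD⟩)] at hxy
      exact absurd (hxy ▸ hgZ ⟨x, mem_sdiff.2 ⟨hx', hxD⟩⟩) (hfZ y hyD)
    · rw [e2 x (mem_sdiff.2 ⟨hx', hxD⟩), e2 y (mem_sdiff.2 ⟨hy', hyD⟩)] at hxy
      exact congrArg Subtype.val (hg hxy)
  · intro x hx y hy hxy
    by_cases hxD : x ∈ D <;> by_cases hyD : y ∈ D
    · rw [e1 x hxD, e1 y hyD]
      exact hf.2 x hxD y hyD hxy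
    · rw [e1 x hxD, e2 y (mem_sdiff.2 ⟨hy, hyD⟩)]
      exact hgD ⟨y, mem_sdiff.2 ⟨hy, hyD⟩⟩ x hxD hxy.symm
    · rw [e1 y hyD, e2 x (mem_sdiff.2 ⟨hx, hxD⟩)]
      exact fun h => hgD ⟨x, mem_sdiff.2 ⟨hx, hxD⟩⟩ y hyD hxy h.symm
    · rw [e2 x (mem_sdiff.2 ⟨hx, hxD⟩), e2 y (mem_sdiff.2 ⟨hy, hyD⟩)]
      exact hZ _ (hgZ _) _ (hgZ _)
  · rw [e2 x hx]
    exact hgZ _

end Pool.Agent.SC
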