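import Mathlib
import Pool.Agent.SC.Stmts

set_option autoImplicit false

namespace Pool.Agent.SC

open Finset Classical Pool.Agent.Sid86

theorem t_LOW : Stmt_LOW := by
  intro V W _ _ G A H I s h hcub hne hI
  by_contra hs
  obtain ⟨v, hv⟩ := hne
  obtain ⟨x⟩ := ‹Nonempty W›
  have hN : (univ.filter (fun y => H.Adj x y)).card ≤ s := by
    apply hI.max
    intro a ha b hb hab
    simp only [mem_filter, mem_univ, true_and] at ha hb
    exact h.tf _ _ _ ha hab hb
  have hZ : (insert x (univ.filter (fun y => H.Adj x y))).card ≤ 4 :=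
    (card_insert_le _ _).trans (by omega)
  have hSe : A \ {v} = A.erase v := by
    ext y; simp [and_comm]
  have hE := E2_erase G hv
  have hd := hcub v hv
  obtain ⟨f, hf, hfZ⟩ := h.avoid (S := {v}) (by simpa using hv) (by simp)
    (insert x (univ.filter (fun y => H.Adj x y))) (by
      rw [hSe, card_singleton]; omega)
  apply h.no
  have hfx : ∀ y ∈ A, y ≠ v → f y ≠ x ∧ ¬ H.Adj x (f y) := by
    intro y hy hyv
    have := hfZ y (by simp [hy, hyv])
    simp only [mem_insert, mem_filter, mem_univ, true_and, not_or] at this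
    exact this
  refine ⟨fun y => if y = v then x else f y, ?_, ?_⟩
  · intro y hy z hz hyz
    have hy' : y ∈ A := hy
    have hz' : z ∈ A := hz
    simp only at hyz
    by_cases hyv : y = v
    · by_cases hzv : z = v
      · rw [hyv, hzv]
      · rw [if_pos hyv, if_neg hzv] at hyz
        exact absurd hyz.symm (hfx z hz' hzv).1
    · by_cases hzv : z = v
      · rw [if_neg hyv, if_pos hzv] at hyz
        exact absurd hyz (hfx y hy' hyv).1
      · rw [if_neg hyv, if_neg hzv] at hyz
        exact hf.1 (mem_coe.2 (by simp [hy', hyv])) (mem_coe.2 (by simp [hz', hzv])) hyz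
  · intro y hy z hz hyz
    simp only
    by_cases hyv : y = v
    · have hzv : z ≠ v := by
        rintro rfl
        exact hyz.ne hyv
      rw [if_pos hyv, if_neg hzv]
      exact (hfx z hz hzv).2
    · rw [if_neg hyv]
      by_cases hzv : z = v
      · rw [if_pos hzv]
        exact fun hh => (hfx y hy hyv).2 hh.symm
      · rw [if_neg hzv]
        exact hf.2 y (by simp [hy, hyv]) z (by simp [hz, hzv]) hyz

end Pool.Agent.SC
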