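import Mathlib
import Pool.Agent.SC.Stmts

/-!
# SC_RG1: regime I, greedy placement with a reserved edge
-/

set_option autoImplicit false

namespace Pool.Agent.SC

open Finset Classical Pool.Agent.Sid86

namespace RG1

variable {V W : Type}

/-- Extending an embedding by one vertex. -/
theorem emb_insert {G : SimpleGraph V} {H : SimpleGraph W} {B : Finset V} {f : V → W} {x : V}
    {z : W} (hf : Emb G H B f) (hx : x ∉ B) (h1 : ∀ a ∈ B, f a ≠ z)
    (h2 : ∀ a ∈ B, G.Adj x a → ¬ H.Adj z (f a)) :
    Emb G H (insert x B) (Function.update f x z) := by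
  have hne : ∀ a ∈ B, a ≠ x := fun a ha h => hx (h ▸ ha)
  have hu : ∀ a ∈ B, Function.update f x z a = f a := fun a ha =>
    Function.update_of_ne (hne a ha) _ _
  refine ⟨?_, ?_⟩
  · intro a ha b hb hab
    rw [coe_insert, Set.mem_insert_iff, mem_coe] at ha hb
    rcases ha with rfl | ha <;> rcases hb with rfl | hb
    · rfl
    · rw [Function.update_self, hu b hb] at hab
      exact absurd hab.symm (h1 b hb)
    · rw [Function.update_self, hu a ha] at hab
      exact absurd hab (h1 a ha)
    · rw [hu a ha, hu b hb] at hab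
      exact hf.1 (mem_coe.2 ha) (mem_coe.2 hb) hab
  · intro a ha b hb hab
    rw [mem_insert] at ha hb
    rcases ha with rfl | ha <;> rcases hb with rfl | hb
    · exact absurd hab (G.loopless.irrefl _)
    · rw [Function.update_self, hu b hb]
      exact h2 b hb hab
    · rw [Function.update_self, hu a ha]
      exact fun h => h2 a ha hab.symm h.symm
    · rw [hu a ha, hu b hb]
      exact hf.2 a ha b hb hab

/-- A free position. -/
theorem free_pos [Fintype W] {G : SimpleGraph V} {H : SimpleGraph W} {B : Finset V} (f : V → W)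
    {x : V} {s : ℕ} (hs : ∀ y : W, (univ.filter (fun z => H.Adj y z)).card ≤ s)
    (hd : dg G B x ≤ 2) (F : Finset W) (hF : F.card ≤ 2)
    (hc : B.card + 2 + 2 * s < Fintype.card W) :
    ∃ z : W, z ∉ F ∧ (∀ a ∈ B, f a ≠ z) ∧ ∀ a ∈ B, G.Adj x a → ¬ H.Adj z (f a) := by
  let S : Finset W := (B.image f ∪ F) ∪
    (B.filter (fun a => G.Adj x a)).biUnion fun a => univ.filter (fun z => H.Adj (f a) z)
  have hS : S.card < Fintype.card W := by
    have h1 : (B.image f ∪ F).card ≤ B.card + 2 :=
      (card_union_le _ _).trans (Nat.add_le_add card_image_le hF)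
    have h2 : ((B.filter (fun a => G.Adj x a)).biUnion
        fun a => univ.filter (fun z => H.Adj (f a) z)).card ≤ 2 * s := by
      refine (card_biUnion_le_card_mul _ _ s fun a _ => hs (f a)).trans ?_
      exact Nat.mul_le_mul_right s hd
    have h3 : S.card ≤ _ := card_union_le _ _
    omega
  obtain ⟨z, hz⟩ : ∃ z : W, z ∉ S := by
    by_contra hcon
    push Not at hcon
    have : S = univ := eq_univ_iff_forall.2 hcon
    rw [this, card_univ] at hS
    exact lt_irrefl _ hS
  refine ⟨z, ?_, ?_, ?_⟩
  · intro h
    exact hz (mem_union_left _ (mem_union_right _ h))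
  · intro a ha h
    exact hz (mem_union_left _ (mem_union_left _ (mem_image.2 ⟨a, ha, h⟩)))
  · intro a ha hxa h
    refine hz (mem_union_right _ (mem_biUnion.2 ⟨a, mem_filter.2 ⟨ha, hxa⟩, ?_⟩))
    exact mem_filter.2 ⟨mem_univ _, h.symm⟩

/-- A vertex with an unplaced neighbour has at most two placed neighbours. -/
theorem dg_le_two {G : SimpleGraph V} {A B : Finset V} (hcub : Cubic G A) {x y : V} (hx : x ∈ A)
    (hy : y ∈ A) (hxy : G.Adj x y) (hB : B ⊆ A) (hyB : y ∉ B) : dg G B x ≤ 2 := by
  have h3 : dg G A x = 3 := hcub x hx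
  have h4 : dg G B x < dg G A x := by
    refine card_lt_card ?_
    rw [ssubset_iff_of_subset (filter_subset_filter _ hB)]
    exact ⟨y, mem_filter.2 ⟨hy, hxy⟩, fun h => hyB (mem_filter.1 h).1⟩
  omega

/-- Two non-adjacent vertices. -/
theorem nonadj [Fintype W] {H : SimpleGraph W} (hH : TF H) (h3 : 3 ≤ Fintype.card W) :
    ∃ x1 x2 : W, x1 ≠ x2 ∧ ¬ H.Adj x1 x2 := by
  rw [← card_univ] at h3
  obtain ⟨a, b, c, -, -, -, hab, hac, hbc⟩ := (two_lt_card_iff (s := (univ : Finset W))).1
    (by omega)
  by_contra hcon
  push Not at hcon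
  exact hH a b c (hcon a b hab) (hcon b c hbc) (hcon a c hac)

end RG1

theorem t_RG1 (hTUP : Stmt_TUP) : Stmt_RG1 := by
  intro V W _ _ G A H I s ctx hcub hne hconn mi
  by_contra hcon
  have hk : 4 * s < 3 * A.card := not_le.1 hcon
  have hE : E2 G A = 3 * A.card := by
    unfold E2
    rw [sum_congr rfl hcub, sum_const, smul_eq_mul, mul_comm]
  have hW : 5 * A.card ≤ 2 * Fintype.card W := by
    have := ctx.card
    omega
  have hs : ∀ y : W, (univ.filter (fun z => H.Adj y z)).card ≤ s := by
    intro y
    refine mi.max _ ?_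
    intro a ha b hb hab
    exact ctx.tf y a b (mem_filter.1 ha).2 hab (mem_filter.1 hb).2
  obtain ⟨v, u, c1, c2, hvA, huA, hc1A, hc2A, hvu, hvc1, hvc2, huc1, huc2, hc12, hvu', hvc1',
    hvc2', hN, hD⟩ := hTUP V G A hcub hconn hne
  have hA4 : 4 ≤ A.card := by
    have h1 : ({v, u, c1, c2} : Finset V) ⊆ A := by
      intro x hx
      simp only [mem_insert, mem_singleton] at hx
      rcases hx with rfl | rfl | rfl | rfl <;> assumption
    have h2 : ({v, u, c1, c2} : Finset V).card = 4 := by
      rw [card_insert_of_notMem (by simp [hvu, hvc1, hvc2]),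
        card_insert_of_notMem (by simp [huc1, huc2]), card_insert_of_notMem (by simp [hc12]),
        card_singleton]
    have := card_le_card h1
    omega
  obtain ⟨x1, x2, hx12, hx12'⟩ := RG1.nonadj ctx.tf (show 3 ≤ Fintype.card W by omega)
  obtain ⟨p, q, hp1, hp2, hq1, hq2, hpq⟩ : ∃ p q : W, ¬ H.Adj x1 p ∧ ¬ H.Adj x2 p ∧
      ¬ H.Adj x1 q ∧ ¬ H.Adj x2 q ∧ H.Adj p q := by
    by_contra hno
    push Not at hno
    let R : Finset W := univ.filter fun z => ¬ H.Adj x1 z ∧ ¬ H.Adj x2 z
    have h1 : R.card ≤ s := by
      refine mi.max R ?_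
      intro a ha b hb hab
      have ha' := (mem_filter.1 ha).2
      have hb' := (mem_filter.1 hb).2
      exact hno a b ha'.1 ha'.2 hb'.1 hb'.2 hab
    have h2 : (univ : Finset W) ⊆ R ∪ (univ.filter (fun z => H.Adj x1 z) ∪
        univ.filter (fun z => H.Adj x2 z)) := by
      intro z _
      simp only [R, mem_union, mem_filter, mem_univ, true_and]
      tauto
    have h3 := card_le_card h2
    have h4 := card_union_le R (univ.filter (fun z => H.Adj x1 z) ∪
        univ.filter (fun z => H.Adj x2 z))
    have h5 := card_union_le (univ.filter (fun z => H.Adj x1 z))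
      (univ.filter (fun z => H.Adj x2 z))
    have h6 := hs x1
    have h7 := hs x2
    rw [card_univ] at h3
    omega
  have hpx1 : p ≠ x1 := fun h => hq1 (h ▸ hpq)
  have hpx2 : p ≠ x2 := fun h => hq2 (h ▸ hpq)
  have hqx1 : q ≠ x1 := fun h => hp1 (h ▸ hpq.symm)
  have hqx2 : q ≠ x2 := fun h => hp2 (h ▸ hpq.symm)
  set D : Finset V := A \ {v, c1, c2} with hDdef
  have hmD : ∀ x, x ∈ D ↔ x ∈ A ∧ x ≠ v ∧ x ≠ c1 ∧ x ≠ c2 := by
    intro x
    simp only [hDdef, mem_sdiff, mem_insert, mem_singleton, not_or]
  have key : ∀ n : ℕ, ∀ Y : Finset V, u ∈ Y → Y ⊆ D → (D \ Y).card = n →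
      ∃ f : V → W, Emb G H (A \ insert v Y) f ∧ f c1 = x1 ∧ f c2 = x2 ∧
        ∀ x ∈ A \ insert v Y, f x ≠ p ∧ f x ≠ q := by
    intro n
    induction n with
    | zero =>
      intro Y huY hYD hc
      have hYe : Y = D := by
        refine Subset.antisymm hYD ?_
        rw [card_eq_zero, sdiff_eq_empty_iff_subset] at hc
        exact hc
      subst hYe
      have hmem : ∀ x, x ∈ A \ insert v D ↔ x = c1 ∨ x = c2 := by
        intro x
        rw [mem_sdiff, mem_insert, hmD]
        constructor
        · rintro ⟨hxA, hx⟩
          push Not at hx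
          by_contra hc'
          push Not at hc'
          exact hc'.2 (hx.2 hxA hx.1 hc'.1)
        · rintro (rfl | rfl)
          · exact ⟨hc1A, by
              rintro (h | h)
              · exact hvc1 h.symm
              · exact h.2.2.1 rfl⟩
          · exact ⟨hc2A, by
              rintro (h | h)
              · exact hvc2 h.symm
              · exact h.2.2.2 rfl⟩
      refine ⟨fun x => if x = c1 then x1 else x2, ⟨?_, ?_⟩, if_pos rfl, if_neg hc12.symm, ?_⟩
      · intro a ha b hb hab
        rw [mem_coe, hmem] at ha hb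
        rcases ha with rfl | rfl <;> rcases hb with rfl | rfl
        · rfl
        · simp only [if_true, if_neg hc12.symm] at hab
          exact absurd hab hx12
        · simp only [if_true, if_neg hc12.symm] at hab
          exact absurd hab.symm hx12
        · rfl
      · intro a ha b hb hab
        rw [hmem] at ha hb
        rcases ha with rfl | rfl <;> rcases hb with rfl | rfl
        · exact absurd hab (G.loopless.irrefl _)
        · simp only [if_true, if_neg hc12.symm]
          exact hx12'
        · simp only [if_true, if_neg hc12.symm]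
          exact fun h => hx12' h.symm
        · exact absurd hab (G.loopless.irrefl _)
      · intro x hx
        rw [hmem] at hx
        rcases hx with rfl | rfl
        · simp only [if_true]
          exact ⟨hpx1.symm, hqx1.symm⟩
        · simp only [if_neg hc12.symm]
          exact ⟨hpx2.symm, hqx2.symm⟩
    | succ n ih =>
      intro Y huY hYD hc
      have hYne : Y ≠ D := by
        rintro rfl
        rw [sdiff_self, bot_eq_empty, card_empty] at hc
        omega
      obtain ⟨y, hyY, x, hx, hyx⟩ := hD Y hYD ⟨u, huY⟩ hYne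
      rw [mem_sdiff] at hx
      obtain ⟨hxD, hxY⟩ := hx
      have hxD' := (hmD x).1 hxD
      have hyD' := (hmD y).1 (hYD hyY)
      obtain ⟨f, hf, hf1, hf2, hfp⟩ := ih (insert x Y) (mem_insert_of_mem huY)
        (insert_subset hxD hYD) (by
          have h1 : D \ Y = insert x (D \ insert x Y) := by
            ext a
            simp only [mem_sdiff, mem_insert]
            constructor
            · rintro ⟨ha, ha'⟩
              by_cases hax : a = x
              · exact Or.inl hax
              · exact Or.inr ⟨ha, by tauto⟩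
            · rintro (rfl | ⟨ha, ha'⟩)
              · exact ⟨hxD, hxY⟩
              · exact ⟨ha, by tauto⟩
          rw [h1, card_insert_of_notMem (by simp)] at hc
          omega)
      set B : Finset V := A \ insert v (insert x Y) with hB
      have hBA : B ⊆ A := sdiff_subset
      have hxB : x ∉ B := by simp [hB]
      have hyB : y ∉ B := by
        rw [hB, mem_sdiff]
        exact fun h => h.2 (mem_insert_of_mem (mem_insert_of_mem hyY))
      have hBc : B.card + 3 ≤ A.card := by
        have h1 : ({v, x, u} : Finset V) ⊆ insert v (insert x Y) := by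
          intro a ha
          simp only [mem_insert, mem_singleton] at ha ⊢
          rcases ha with rfl | rfl | rfl
          · exact Or.inl rfl
          · exact Or.inr (Or.inl rfl)
          · exact Or.inr (Or.inr huY)
        have h2 : ({v, x, u} : Finset V).card = 3 := by
          have hxu : x ≠ u := fun h => hxY (h ▸ huY)
          rw [card_insert_of_notMem (by simp [hvu, hxD'.2.1.symm]),
            card_insert_of_notMem (by simp [hxu]), card_singleton]
        have h3 : insert v (insert x Y) ⊆ A := by
          refine insert_subset hvA (insert_subset hxD'.1 ?_)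
          exact fun a ha => ((hmD a).1 (hYD ha)).1
        have h4 : B.card + (insert v (insert x Y)).card = A.card :=
          card_sdiff_add_card_eq_card h3
        have h5 := card_le_card h1
        omega
      obtain ⟨z, hzF, hz1, hz2⟩ := RG1.free_pos (G := G) (H := H) (B := B) f (x := x) hs
        (RG1.dg_le_two hcub hxD'.1 hyD'.1 hyx.symm hBA hyB) {p, q} card_le_two (by omega)
      rw [mem_insert, mem_singleton, not_or] at hzF
      have hins : A \ insert v Y = insert x B := by
        ext a
        simp only [hB, mem_sdiff, mem_insert, not_or]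
        constructor
        · rintro ⟨h1, h2, h3⟩
          by_cases hax : a = x
          · exact Or.inl hax
          · exact Or.inr ⟨h1, h2, hax, h3⟩
        · rintro (rfl | ⟨h1, h2, h3, h4⟩)
          · exact ⟨hxD'.1, hxD'.2.1, hxY⟩
          · exact ⟨h1, h2, h4⟩
      refine ⟨Function.update f x z, ?_, ?_, ?_, ?_⟩
      · rw [hins]
        exact RG1.emb_insert hf hxB hz1 hz2
      · rw [Function.update_of_ne hxD'.2.2.1.symm, hf1]
      · rw [Function.update_of_ne hxD'.2.2.2.symm, hf2]
      · intro a ha
        rw [hins, mem_insert] at ha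
        rcases ha with rfl | ha
        · rw [Function.update_self]
          exact hzF
        · rw [Function.update_of_ne (fun h' : a = x => hxB (h' ▸ ha))]
          exact hfp a ha
  have huD : u ∈ D := (hmD u).2 ⟨huA, hvu.symm, huc1, huc2⟩
  obtain ⟨f, hf, hf1, hf2, hfp⟩ := key _ {u} (mem_singleton_self u)
    (singleton_subset_iff.2 huD) rfl
  set B : Finset V := A \ insert v {u} with hB
  have hBA : B ⊆ A := sdiff_subset
  have huB : u ∉ B := by simp [hB]
  have hvB : v ∉ B := by simp [hB]
  have hBc : B.card + 2 = A.card := by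
    have h3 : insert v {u} ⊆ A := insert_subset hvA (singleton_subset_iff.2 huA)
    have h4 : B.card + (insert v {u} : Finset V).card = A.card :=
      card_sdiff_add_card_eq_card h3
    rw [card_insert_of_notMem (by simp [hvu]), card_singleton] at h4
    exact h4
  obtain ⟨y, hyF, hy1, hy2⟩ := RG1.free_pos (G := G) (H := H) (B := B) f (x := u) hs
    (RG1.dg_le_two hcub huA hvA hvu'.symm hBA hvB) {p, q} card_le_two (by omega)
  rw [mem_insert, mem_singleton, not_or] at hyF
  have hf' := RG1.emb_insert hf huB hy1 hy2
  have hvB' : v ∉ insert u B := by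
    rw [mem_insert, not_or]
    exact ⟨hvu, hvB⟩
  obtain ⟨r, hr1, hr2, hry, hrp⟩ : ∃ r : W, ¬ H.Adj x1 r ∧ ¬ H.Adj x2 r ∧ ¬ H.Adj y r ∧
      (r = p ∨ r = q) := by
    by_cases h : H.Adj y p
    · exact ⟨q, hq1, hq2, fun h' => ctx.tf y p q h hpq h', Or.inr rfl⟩
    · exact ⟨p, hp1, hp2, h, Or.inl rfl⟩
  refine ctx.no ⟨Function.update (Function.update f u y) v r, ?_⟩
  have hA' : A = insert v (insert u B) := by
    ext a
    simp only [hB, mem_insert, mem_sdiff, mem_singleton, not_or]
    constructor
    · intro ha
      by_cases h1 : a = v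
      · exact Or.inl h1
      · by_cases h2 : a = u
        · exact Or.inr (Or.inl h2)
        · exact Or.inr (Or.inr ⟨ha, h1, h2⟩)
    · rintro (rfl | rfl | h)
      · exact hvA
      · exact huA
      · exact h.1
  rw [hA']
  refine RG1.emb_insert hf' hvB' ?_ ?_
  · intro a ha h
    rw [mem_insert] at ha
    rcases ha with rfl | ha
    · rw [Function.update_self] at h
      rcases hrp with rfl | rfl
      · exact hyF.1 h
      · exact hyF.2 h
    · rw [Function.update_of_ne (fun h' : a = u => huB (h' ▸ ha))] at h
      rcases hrp with rfl | rfl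
      · exact (hfp a ha).1 h
      · exact (hfp a ha).2 h
  · intro a ha hva h
    have haA : a ∈ A := by
      rw [mem_insert] at ha
      rcases ha with rfl | ha
      · exact huA
      · exact hBA ha
    rcases hN a haA hva with rfl | rfl | rfl
    · rw [Function.update_self] at h
      exact hry h.symm
    · rw [Function.update_of_ne huc1.symm, hf1] at h
      exact hr1 h.symm
    · rw [Function.update_of_ne huc2.symm, hf2] at h
      exact hr2 h.symm

end Pool.Agent.SC
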