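import Mathlib
import Pool.Agent.SC.Stmts

/-!
# MP_c6effb_co: module SC_TUP

In a connected cubic graph there are a vertex `v` and two of its neighbours `c1, c2` such that
removing `v, c1, c2` leaves a connected graph.
-/

set_option autoImplicit false

namespace Pool.Agent.SC

open Finset Classical Pool.Agent.Sid86

namespace TUP

/-- adding an adjacent vertex keeps a set connected -/
lemma ins {V : Type} {G : SimpleGraph V} {D : Finset V} {x y : V} (h : Conn G D) (hy : y ∈ D)
    (hxy : G.Adj x y) : Conn G (insert x D) := by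
  intro X hX hXne hXD
  by_cases hxD : x ∈ D
  · rw [insert_eq_of_mem hxD] at hX hXD ⊢
    exact h X hX hXne hXD
  by_cases hxX : x ∈ X
  · by_cases hyX : y ∈ X
    · have h1 : X.erase x ⊆ D := by
        intro a ha
        rcases mem_insert.1 (hX (mem_of_mem_erase ha)) with h2 | h2
        · exact absurd h2 (ne_of_mem_erase ha)
        · exact h2
      have hyx : y ≠ x := fun h2 => hxD (h2 ▸ hy)
      have h3 : X.erase x ≠ D := by
        intro h4
        apply hXD
        rw [← h4, insert_erase hxX]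
      obtain ⟨a, ha, b, hb, hab⟩ := h (X.erase x) h1 ⟨y, mem_erase.2 ⟨hyx, hyX⟩⟩ h3
      have hb1 := mem_sdiff.1 hb
      refine ⟨a, mem_of_mem_erase ha, b, mem_sdiff.2 ⟨mem_insert_of_mem hb1.1, ?_⟩, hab⟩
      intro hbX
      apply hb1.2
      exact mem_erase.2 ⟨fun h5 => hxD (h5 ▸ hb1.1), hbX⟩
    · exact ⟨x, hxX, y, mem_sdiff.2 ⟨mem_insert_of_mem hy, hyX⟩, hxy⟩
  · have h1 : X ⊆ D := by
      intro a ha
      rcases mem_insert.1 (hX ha) with h2 | h2
      · exact absurd (h2 ▸ ha) hxX
      · exact h2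
    by_cases h2 : X = D
    · exact ⟨y, h2 ▸ hy, x, mem_sdiff.2 ⟨mem_insert_self _ _, hxX⟩, hxy.symm⟩
    · obtain ⟨a, ha, b, hb, hab⟩ := h X h1 hXne h2
      have hb1 := mem_sdiff.1 hb
      exact ⟨a, ha, b, mem_sdiff.2 ⟨mem_insert_of_mem hb1.1, hb1.2⟩, hab⟩

/-- the three neighbours -/
lemma nb0 {V : Type} {G : SimpleGraph V} {A : Finset V} (h : Cubic G A) {x : V} (hx : x ∈ A) :
    ∃ a b c : V, a ∈ A ∧ b ∈ A ∧ c ∈ A ∧ a ≠ b ∧ a ≠ c ∧ b ≠ c ∧ G.Adj x a ∧ G.Adj x b ∧
      G.Adj x c ∧ ∀ y ∈ A, G.Adj x y → y = a ∨ y = b ∨ y = c := by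
  have h1 := h x hx
  unfold dg at h1
  obtain ⟨a, b, c, hab, hac, hbc, he⟩ := card_eq_three.1 h1
  have hm : ∀ y, y ∈ A.filter (fun y => G.Adj x y) ↔ y = a ∨ y = b ∨ y = c := by
    intro y
    rw [he]
    simp
  have ha := mem_filter.1 ((hm a).2 (Or.inl rfl))
  have hb := mem_filter.1 ((hm b).2 (Or.inr (Or.inl rfl)))
  have hc := mem_filter.1 ((hm c).2 (Or.inr (Or.inr rfl)))
  exact ⟨a, b, c, ha.1, hb.1, hc.1, hab, hac, hbc, ha.2, hb.2, hc.2,
    fun y hy hxy => (hm y).1 (mem_filter.2 ⟨hy, hxy⟩)⟩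

/-- one neighbour given -/
lemma nb1 {V : Type} {G : SimpleGraph V} {A : Finset V} (h : Cubic G A) {x a : V} (hx : x ∈ A)
    (ha : a ∈ A) (hxa : G.Adj x a) :
    ∃ b c : V, b ∈ A ∧ c ∈ A ∧ a ≠ b ∧ a ≠ c ∧ b ≠ c ∧ G.Adj x b ∧
      G.Adj x c ∧ ∀ y ∈ A, G.Adj x y → y = a ∨ y = b ∨ y = c := by
  obtain ⟨p, q, r, hp, hq, hr, hpq, hpr, hqr, xp, xq, xr, hall⟩ := nb0 h hx
  rcases hall a ha hxa with e | e | e
  · subst e
    exact ⟨q, r, hq, hr, hpq, hpr, hqr, xq, xr, hall⟩
  · subst e
    refine ⟨p, r, hp, hr, hpq.symm, hqr, hpr, xp, xr, ?_⟩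
    intro y hy hxy
    rcases hall y hy hxy with e | e | e
    · exact Or.inr (Or.inl e)
    · exact Or.inl e
    · exact Or.inr (Or.inr e)
  · subst e
    refine ⟨p, q, hp, hq, hpr.symm, hqr.symm, hpq, xp, xq, ?_⟩
    intro y hy hxy
    rcases hall y hy hxy with e | e | e
    · exact Or.inr (Or.inl e)
    · exact Or.inr (Or.inr e)
    · exact Or.inl e

/-- two neighbours given -/
lemma nb2 {V : Type} {G : SimpleGraph V} {A : Finset V} (h : Cubic G A) {x a b : V} (hx : x ∈ A)
    (ha : a ∈ A) (hb : b ∈ A) (hab : a ≠ b) (hxa : G.Adj x a) (hxb : G.Adj x b) :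
    ∃ c : V, c ∈ A ∧ a ≠ c ∧ b ≠ c ∧ G.Adj x c ∧
      ∀ y ∈ A, G.Adj x y → y = a ∨ y = b ∨ y = c := by
  obtain ⟨q, r, hq, hr, haq, har, hqr, xq, xr, hall⟩ := nb1 h hx ha hxa
  rcases hall b hb hxb with e | e | e
  · exact absurd e.symm hab
  · subst e
    exact ⟨r, hr, har, hqr, xr, hall⟩
  · subst e
    refine ⟨q, hq, haq, hqr.symm, xq, ?_⟩
    intro y hy hxy
    rcases hall y hy hxy with e | e | e
    · exact Or.inl e
    · exact Or.inr (Or.inr e)
    · exact Or.inr (Or.inl e)

/-- the tuples of the proof -/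
structure Tup {V : Type} (G : SimpleGraph V) (A : Finset V) (v u c1 c2 : V) (D : Finset V) :
    Prop where
  vA : v ∈ A
  c1A : c1 ∈ A
  c2A : c2 ∈ A
  c12 : c1 ≠ c2
  avu : G.Adj v u
  avc1 : G.Adj v c1
  avc2 : G.Adj v c2
  nb : ∀ x ∈ A, G.Adj v x → x = u ∨ x = c1 ∨ x = c2
  DA : D ⊆ A
  vD : v ∉ D
  c1D : c1 ∉ D
  c2D : c2 ∉ D
  uD : u ∈ D
  conn : Conn G D

/-- a tuple that is not spanning can be enlarged -/
lemma step {V : Type} {G : SimpleGraph V} {A : Finset V} (hcub : Cubic G A) (hconn : Conn G A)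
    {v u c1 c2 : V} {D : Finset V} (t : Tup G A v u c1 c2 D) (hne : D ≠ A \ {v, c1, c2}) :
    ∃ v' u' c1' c2' D', Tup G A v' u' c1' c2' D' ∧ D.card < D'.card := by
  by_contra hcon
  have hmax : ∀ v' u' c1' c2' D', Tup G A v' u' c1' c2' D' → D.card < D'.card → False :=
    fun v' u' c1' c2' D' h1 h2 => hcon ⟨v', u', c1', c2', D', h1, h2⟩
  set C : Finset V := A \ (insert c2 (insert c1 (insert v D))) with hC
  have hCA : C ⊆ A := sdiff_subset
  have hCm : ∀ x, x ∈ C ↔ x ∈ A ∧ x ≠ c2 ∧ x ≠ c1 ∧ x ≠ v ∧ x ∉ D := by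
    intro x
    rw [hC]
    simp only [mem_sdiff, mem_insert, not_or]
  have hCne : C.Nonempty := by
    by_contra h1
    rw [not_nonempty_iff_eq_empty] at h1
    apply hne
    ext x
    simp only [mem_sdiff, mem_insert, mem_singleton, not_or]
    constructor
    · intro hx
      exact ⟨t.DA hx, fun e => t.vD (e ▸ hx), fun e => t.c1D (e ▸ hx), fun e => t.c2D (e ▸ hx)⟩
    · rintro ⟨hxA, h2, h3, h4⟩
      by_contra hxD
      have : x ∈ C := (hCm x).2 ⟨hxA, h4, h3, h2, hxD⟩
      rw [h1] at this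
      simp at this
  have hDC : ∀ x ∈ C, ∀ y ∈ D, ¬ G.Adj x y := by
    intro x hx y hy hxy
    obtain ⟨hxA, hx2, hx1, hxv, hxD⟩ := (hCm x).1 hx
    apply hmax v u c1 c2 (insert x D)
    · exact
        { vA := t.vA, c1A := t.c1A, c2A := t.c2A, c12 := t.c12, avu := t.avu, avc1 := t.avc1,
          avc2 := t.avc2, nb := t.nb,
          DA := insert_subset hxA t.DA,
          vD := by
            rw [mem_insert, not_or]
            exact ⟨fun e => hxv e.symm, t.vD⟩
          c1D := by
            rw [mem_insert, not_or]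
            exact ⟨fun e => hx1 e.symm, t.c1D⟩
          c2D := by
            rw [mem_insert, not_or]
            exact ⟨fun e => hx2 e.symm, t.c2D⟩
          uD := mem_insert_of_mem t.uD
          conn := ins t.conn hy hxy }
    · rw [card_insert_of_notMem hxD]
      omega
  have hvC : ∀ x ∈ C, ¬ G.Adj x v := by
    intro x hx hxv
    obtain ⟨hxA, hx2, hx1, hxv', hxD⟩ := (hCm x).1 hx
    rcases t.nb x hxA hxv.symm with e | e | e
    · exact hxD (e ▸ t.uD)
    · exact hx1 e
    · exact hx2 e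
  have hN : ∀ x ∈ C, ∀ y ∈ A, G.Adj x y → y ∈ C ∨ y = c1 ∨ y = c2 := by
    intro x hx y hy hxy
    by_cases h1 : y = c1
    · exact Or.inr (Or.inl h1)
    by_cases h2 : y = c2
    · exact Or.inr (Or.inr h2)
    left
    exact (hCm y).2 ⟨hy, h2, h1, fun e => hvC x hx (e ▸ hxy), fun hyD => hDC x hx y hyD hxy⟩
  -- connectivity of the enlarged sets
  have k1 : Conn G (insert v D) := ins t.conn t.uD t.avu
  have k2 : Conn G (insert c1 (insert v D)) := ins k1 (mem_insert_self _ _) t.avc1.symm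
  have k3 : Conn G (insert c2 (insert c1 (insert v D))) :=
    ins k2 (mem_insert_of_mem (mem_insert_self _ _)) t.avc2.symm
  have hvc1 : v ≠ c1 := t.avc1.ne
  have hvc2 : v ≠ c2 := t.avc2.ne
  -- case (a)
  have hA : ∀ x ∈ C, ∀ c, (c = c1 ∨ c = c2) → G.Adj x c →
      (∀ y ∈ A, G.Adj x y → y ∈ C ∨ y = c) → False := by
    intro x hx c hc hxc hall
    obtain ⟨hxA, hx2, hx1, hxv, hxD⟩ := (hCm x).1 hx
    have hcA : c ∈ A := by
      rcases hc with e | e
      · exact e ▸ t.c1A
      · exact e ▸ t.c2A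
    obtain ⟨z1, z2, hz1, hz2, hcz1, hcz2, hz12, xz1, xz2, hz⟩ := nb1 hcub hxA hcA hxc
    have hz1C : z1 ∈ C := (hall z1 hz1 xz1).resolve_right (fun e => hcz1 e.symm)
    have hz2C : z2 ∈ C := (hall z2 hz2 xz2).resolve_right (fun e => hcz2 e.symm)
    have hout : ∀ w ∈ C, w ∉ insert c2 (insert c1 (insert v D)) := fun w hw =>
      (mem_sdiff.1 hw).2
    apply hmax x c z1 z2 (insert c2 (insert c1 (insert v D)))
    · exact
        { vA := hxA, c1A := hz1, c2A := hz2, c12 := hz12, avu := hxc, avc1 := xz1,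
          avc2 := xz2, nb := hz,
          DA := insert_subset t.c2A (insert_subset t.c1A (insert_subset t.vA t.DA)),
          vD := hout x hx, c1D := hout z1 hz1C, c2D := hout z2 hz2C,
          uD := by
            rcases hc with e | e
            · rw [e]
              exact mem_insert_of_mem (mem_insert_self _ _)
            · rw [e]
              exact mem_insert_self _ _
          conn := k3 }
    · have e1 : (insert v D).card = D.card + 1 := card_insert_of_notMem t.vD
      have e2 : insert v D ⊆ insert c2 (insert c1 (insert v D)) :=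
        (subset_insert _ _).trans (subset_insert _ _)
      have e3 := card_le_card e2
      omega
  -- some vertex of `C` adjacent to `c1` or `c2`
  have hCneA : C ≠ A := by
    intro e
    have : v ∈ C := e ▸ t.vA
    exact ((hCm v).1 this).2.2.2.1 rfl
  obtain ⟨x, hx, y, hy, hxy⟩ := hconn C hCA hCne hCneA
  have hy1 := mem_sdiff.1 hy
  have hyc : y = c1 ∨ y = c2 := (hN x hx y hy1.1 hxy).resolve_left hy1.2
  by_cases a1 : G.Adj x c1
  · by_cases a2 : G.Adj x c2
    · -- case (b)
      obtain ⟨hxA, hx2, hx1, hxv, hxD⟩ := (hCm x).1 hx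
      obtain ⟨z, hzA, hz1, hz2, xz, hz⟩ := nb2 hcub hxA t.c1A t.c2A t.c12 a1 a2
      have hzC : z ∈ C := by
        rcases hN x hx z hzA xz with e | e | e
        · exact e
        · exact absurd e.symm hz1
        · exact absurd e.symm hz2
      obtain ⟨_, hzc2, hzc1, hzv, hzD⟩ := (hCm z).1 hzC
      apply hmax x c1 z c2 (insert c1 (insert v D))
      · exact
          { vA := hxA, c1A := hzA, c2A := t.c2A, c12 := fun e => hz2 e.symm, avu := a1,
            avc1 := xz, avc2 := a2,
            nb := by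
              intro w hw hxw
              rcases hz w hw hxw with e | e | e
              · exact Or.inl e
              · exact Or.inr (Or.inr e)
              · exact Or.inr (Or.inl e)
            DA := insert_subset t.c1A (insert_subset t.vA t.DA),
            vD := by
              simp only [mem_insert, not_or]
              exact ⟨hx1, hxv, hxD⟩
            c1D := by
              simp only [mem_insert, not_or]
              exact ⟨hzc1, hzv, hzD⟩
            c2D := by
              simp only [mem_insert, not_or]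
              exact ⟨fun e => t.c12 e.symm, fun e => hvc2 e.symm, t.c2D⟩
            uD := mem_insert_self _ _
            conn := k2 }
      · have e1 : (insert v D).card = D.card + 1 := card_insert_of_notMem t.vD
        have e3 := card_le_card (subset_insert c1 (insert v D))
        omega
    · apply hA x hx c1 (Or.inl rfl) a1
      intro w hw hxw
      rcases hN x hx w hw hxw with e | e | e
      · exact Or.inl e
      · exact Or.inr e
      · exact absurd (e ▸ hxw) a2
  · have a2 : G.Adj x c2 := by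
      rcases hyc with e | e
      · exact absurd (e ▸ hxy) a1
      · exact e ▸ hxy
    apply hA x hx c2 (Or.inr rfl) a2
    intro w hw hxw
    rcases hN x hx w hw hxw with e | e | e
    · exact Or.inl e
    · exact absurd (e ▸ hxw) a1
    · exact Or.inr e

lemma conn_singleton {V : Type} (G : SimpleGraph V) (u : V) : Conn G {u} := by
  intro X hX hXne hXu
  exfalso
  apply hXu
  exact (subset_singleton_iff.1 hX).resolve_left hXne.ne_empty

/-- iterating the step -/
lemma iter {V : Type} {G : SimpleGraph V} {A : Finset V} (hcub : Cubic G A) (hconn : Conn G A)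
    (n : ℕ) : ∀ (v u c1 c2 : V) (D : Finset V), Tup G A v u c1 c2 D → A.card ≤ D.card + n →
    ∃ v' u' c1' c2', Tup G A v' u' c1' c2' (A \ {v', c1', c2'}) := by
  induction n with
  | zero =>
    intro v u c1 c2 D t hn
    exfalso
    have h1 : D = A := eq_of_subset_of_card_le t.DA (by omega)
    exact t.vD (h1 ▸ t.vA)
  | succ n ih =>
    intro v u c1 c2 D t hn
    by_cases h : D = A \ {v, c1, c2}
    · exact ⟨v, u, c1, c2, h ▸ t⟩
    · obtain ⟨v', u', c1', c2', D', t', hc⟩ := step hcub hconn t h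
      exact ih v' u' c1' c2' D' t' (by omega)

end TUP

theorem t_TUP : Stmt_TUP := by
  intro V G A hcub hconn hne
  obtain ⟨v, hv⟩ := hne
  obtain ⟨u, c1, c2, hu, h1, h2, huc1, huc2, hc12, avu, avc1, avc2, hall⟩ := TUP.nb0 hcub hv
  have t : TUP.Tup G A v u c1 c2 {u} :=
    { vA := hv, c1A := h1, c2A := h2, c12 := hc12, avu := avu, avc1 := avc1, avc2 := avc2,
      nb := hall,
      DA := singleton_subset_iff.2 hu,
      vD := fun h => avu.ne (mem_singleton.1 h),
      c1D := fun h => huc1 (mem_singleton.1 h).symm,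
      c2D := fun h => huc2 (mem_singleton.1 h).symm,
      uD := mem_singleton_self _,
      conn := TUP.conn_singleton G u }
  obtain ⟨v', u', c1', c2', t'⟩ := TUP.iter hcub hconn A.card v u c1 c2 {u} t (by omega)
  have hu' := mem_sdiff.1 t'.uD
  have hu'' : u' ≠ v' ∧ u' ≠ c1' ∧ u' ≠ c2' := by
    have := hu'.2
    simpa only [mem_insert, mem_singleton, not_or] using this
  exact ⟨v', u', c1', c2', t'.vA, hu'.1, t'.c1A, t'.c2A, t'.avu.ne, t'.avc1.ne, t'.avc2.ne,
    hu''.2.1, hu''.2.2, t'.c12, t'.avu, t'.avc1, t'.avc2, t'.nb, t'.conn⟩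

end Pool.Agent.SC
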