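import Mathlib
import Pool.Agent.SC.Stmts

/-!
# ZPR: the vertices of large `I`-degree
-/

set_option autoImplicit false

namespace Pool.Agent.SC

open Finset Classical Pool.Agent.Sid86

namespace ZPR

theorem nbhd_le {W : Type} [Fintype W] {H : SimpleGraph W} {I : Finset W} {s : ℕ} (hH : TF H)
    (mi : MaxInd H I s) (z : W) :
    ((univ \ I).filter (fun y => H.Adj z y)).card + dI H I z ≤ s := by
  have hd : Disjoint ((univ \ I).filter (fun y => H.Adj z y)) (I.filter (fun y => H.Adj z y)) := by
    rw [Finset.disjoint_left]
    intro a ha hb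
    rw [mem_filter, mem_sdiff] at ha
    rw [mem_filter] at hb
    exact ha.1.2 hb.1
  unfold dI
  rw [← card_union_of_disjoint hd]
  apply mi.max
  intro x hx y hy hxy
  have hx' : H.Adj z x := by
    rcases mem_union.1 hx with h | h
    · exact (mem_filter.1 h).2
    · exact (mem_filter.1 h).2
  have hy' : H.Adj z y := by
    rcases mem_union.1 hy with h | h
    · exact (mem_filter.1 h).2
    · exact (mem_filter.1 h).2
  exact hH z x y hx' hxy hy'

theorem two_le {W : Type} {H : SimpleGraph W} {I : Finset W} {s : ℕ} (hH : TF H)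
    (mi : MaxInd H I s) {x y : W} (hxy : H.Adj x y) : dI H I x + dI H I y ≤ s := by
  have hd : Disjoint (I.filter (fun z => H.Adj x z)) (I.filter (fun z => H.Adj y z)) := by
    rw [Finset.disjoint_left]
    intro a ha hb
    exact hH x y a hxy (mem_filter.1 hb).2 (mem_filter.1 ha).2
  unfold dI
  rw [← card_union_of_disjoint hd, ← mi.card]
  exact card_le_card (union_subset (filter_subset _ _) (filter_subset _ _))

end ZPR

/-- Properties of `Zset`. -/
theorem t_ZPR : Stmt_ZPR := by
  intro W _ H I s b hH mi
  constructor
  · intro z hz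
    have h1 := ZPR.nbhd_le hH mi z
    have h2 : s < dI H I z + b := (mem_filter.1 hz).2
    omega
  · intro hb x hx y hy hxy
    have h1 := ZPR.two_le hH mi hxy
    have h2 : s < dI H I x + b := (mem_filter.1 hx).2
    have h3 : s < dI H I y + b := (mem_filter.1 hy).2
    omega

end Pool.Agent.SC
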